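import Mathlib
import Pool.Agent.Helper317.Atr.Defs

/-!
Comprehension for `Π¹₁` formulas, countable abelian groups and the two test statements inside a
structure for second-order arithmetic.
-/

namespace Pool.Agent.H787R3

open Pool.Agent.Helper617.RM Pool.Agent.Helper317.Atr

universe u

variable (N : L2Structure.{u})

/-- The comprehension scheme for `Π¹₁` formulas `∀ Y θ(n, Y)` (`θ` arithmetical, with number and
set parameters from the structure). -/
def Pi11Comp : Prop :=
  ∀ (θ : OpForm N) (v : ℕ → N.M), {n | ∀ Y ∈ N.Sets, θ.Holds Y (cons n v)} ∈ N.Sets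

/-- The data of a coded group: the domain, the graph of the addition, the graph of the inverse
and the identity. -/
structure CGroup where
  dom : Set N.M
  add : N.M → N.M → N.M → Prop
  neg : N.M → N.M → Prop
  zero : N.M

variable {N}

/-- `G` is an abelian group of the structure: the domain, the graph of the addition and the graph
of the inverse are sets of the structure, and the axioms for abelian groups hold. -/
structure CGroup.IsAb (G : CGroup N) : Prop where
  dom_in : G.dom ∈ N.Sets
  add_in : {q | ∃ x y z, G.add x y z ∧ q = N.pair (N.pair x y) z} ∈ N.Sets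
  neg_in : RelIn N G.neg
  zero_dom : G.zero ∈ G.dom
  add_dom : ∀ x y z, G.add x y z → x ∈ G.dom ∧ y ∈ G.dom ∧ z ∈ G.dom
  add_ex : ∀ x ∈ G.dom, ∀ y ∈ G.dom, ∃ z, G.add x y z
  add_uniq : ∀ x y z w, G.add x y z → G.add x y w → z = w
  neg_dom : ∀ x y, G.neg x y → x ∈ G.dom ∧ y ∈ G.dom
  neg_ex : ∀ x ∈ G.dom, ∃ y, G.neg x y
  neg_uniq : ∀ x y z, G.neg x y → G.neg x z → y = z
  comm : ∀ x y z, G.add x y z → G.add y x z
  assoc : ∀ x y z u v w, G.add x y u → G.add u z w → G.add y z v → G.add x v w
  zero_add : ∀ x ∈ G.dom, G.add G.zero x x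
  neg_add : ∀ x y, G.neg x y → G.add y x G.zero

/-- Every element `x` has finite order: the sequence `0, x, 2x, …` of the multiples of `x`, a
function of the structure, takes the value `0` at some `n ≠ 0`. -/
def CGroup.IsTors (G : CGroup N) : Prop :=
  ∀ x ∈ G.dom, ∃ f : N.M → N.M, FunIn N f ∧ f N.zero = G.zero ∧
    (∀ i, G.add (f i) x (f (N.add i N.one))) ∧ ∃ n, n ≠ N.zero ∧ f n = G.zero

/-- The direct sum: its elements are the pairs `(x, y)` with `x` in `G` and `y` in `H`. -/
def CGroup.dsum (G H : CGroup N) : CGroup N where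
  dom := {p | ∃ x ∈ G.dom, ∃ y ∈ H.dom, p = N.pair x y}
  add := fun p q r => ∃ x y x' y' z z', p = N.pair x y ∧ q = N.pair x' y' ∧ r = N.pair z z' ∧
    G.add x x' z ∧ H.add y y' z'
  neg := fun p q => ∃ x y x' y', p = N.pair x y ∧ q = N.pair x' y' ∧ G.neg x x' ∧ H.neg y y'
  zero := N.pair G.zero H.zero

/-- `φ` is an isomorphism, existing in the structure, of `G` onto `H`. -/
structure IsIso (G H : CGroup N) (φ : N.M → N.M → Prop) : Prop where
  in_sets : RelIn N φ
  dom : ∀ x y, φ x y → x ∈ G.dom ∧ y ∈ H.dom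
  tot : ∀ x ∈ G.dom, ∃ y, φ x y
  sur : ∀ y ∈ H.dom, ∃ x, φ x y
  uniq : ∀ x y z, φ x y → φ x z → y = z
  inj : ∀ x y z, φ x z → φ y z → x = y
  add : ∀ x x' z y y' w, φ x y → φ x' y' → φ z w → G.add x x' z → H.add y y' w

/-- `G` and `H` are isomorphic in the sense of the structure. -/
def CGroup.Iso (G H : CGroup N) : Prop := ∃ φ, IsIso G H φ

/-- `G` is a direct summand of `H`: `H` is isomorphic to `G ⊕ K` for an abelian group `K` of the
structure. -/
def CGroup.IsSummand (G H : CGroup N) : Prop := ∃ K : CGroup N, K.IsAb ∧ H.Iso (G.dsum K)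

variable (N)

/-- Statement (a): for all torsion abelian groups `G`, `H`, if `G ⊕ G` is isomorphic to `H ⊕ H`,
then `G` is isomorphic to `H`. -/
def TestA : Prop :=
  ∀ G H : CGroup N, G.IsAb → H.IsAb → G.IsTors → H.IsTors →
    (G.dsum G).Iso (H.dsum H) → G.Iso H

/-- Statement (b): for all torsion abelian groups `G`, `H`, if each of `G`, `H` is a direct
summand of the other, then `G` is isomorphic to `H`. -/
def TestB : Prop :=
  ∀ G H : CGroup N, G.IsAb → H.IsAb → G.IsTors → H.IsTors →
    G.IsSummand H → H.IsSummand G → G.Iso H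

end Pool.Agent.H787R3
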