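import Mathlib
import Pool.Agent.H787R3.BDefs

/-!
Families of sets of natural numbers that are correct for all statements `∃ Y θ(Y)` with `θ`
arithmetical (β-models).
-/

namespace Pool.Agent.H787R3

open Pool.Agent.Helper617.RM Pool.Agent.Helper317.Atr

/-- the `ω`-structure with the family `S` of sets -/
abbrev om (S : Set (Set ℕ)) : L2Structure.{0} where
  M := ℕ
  zero := 0
  one := 1
  add := (· + ·)
  mul := (· * ·)
  lt := (· < ·)
  Sets := S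

/-- the pairing function -/
def pr (x y : ℕ) : ℕ := (x + y) * (x + y) + x

theorem pr_inj {x y x' y' : ℕ} (h : pr x y = pr x' y') : x = x' ∧ y = y' := by
  unfold pr at h
  have h1 : x + y = x' + y' := by
    rcases lt_trichotomy (x + y) (x' + y') with h2 | h2 | h2
    · exfalso
      have h3 : (x + y + 1) * (x + y + 1) ≤ (x' + y') * (x' + y') := Nat.mul_le_mul h2 h2
      nlinarith
    · exact h2
    · exfalso
      have h3 : (x' + y' + 1) * (x' + y' + 1) ≤ (x + y) * (x + y) := Nat.mul_le_mul h2 h2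
      nlinarith
  rw [h1] at h
  omega

theorem pr_inj3 {x y z x' y' z' : ℕ} (h : pr (pr x y) z = pr (pr x' y') z') :
    x = x' ∧ y = y' ∧ z = z' := by
  obtain ⟨h1, h2⟩ := pr_inj h
  obtain ⟨h3, h4⟩ := pr_inj h1
  exact ⟨h3, h4, h2⟩

variable {S : Set (Set ℕ)}

/-- `S` is a β-family -/
def Beta (S : Set (Set ℕ)) : Prop :=
  ∀ (θ : OpForm (om S)) (v : ℕ → ℕ), (∃ Y : Set ℕ, θ.Holds Y v) → ∃ Y ∈ S, θ.Holds Y v

/-- definable relations -/
def A1 (S : Set (Set ℕ)) (R : (ℕ → ℕ) → Set ℕ → Prop) : Prop :=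
  ∃ φ : OpForm (om S), ∀ (v : ℕ → ℕ) (Y : Set ℕ), φ.Holds Y v ↔ R v Y

/-- definable functions -/
def T1 (S : Set (Set ℕ)) (t : (ℕ → ℕ) → ℕ) : Prop :=
  ∃ τ : Term (om S), ∀ v : ℕ → ℕ, τ.val v = t v

/-- shift of an assignment -/
def tl (v : ℕ → ℕ) : ℕ → ℕ := fun n => v (n + 1)

theorem cons_tl (w : ℕ → ℕ) : cons (w 0) (tl w) = w := by funext i; cases i <;> rfl

theorem T1.var (i : ℕ) : T1 S (fun v => v i) := ⟨.var i, fun _ => rfl⟩
theorem T1.const (a : ℕ) : T1 S (fun _ => a) := ⟨Term.const (N := om S) a, fun _ => rfl⟩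
theorem T1.add {s t : (ℕ → ℕ) → ℕ} (hs : T1 S s) (ht : T1 S t) : T1 S (fun v => s v + t v) := by
  obtain ⟨σ, hσ⟩ := hs
  obtain ⟨τ, hτ⟩ := ht
  exact ⟨.add σ τ, fun v => congrArg₂ (· + ·) (hσ v) (hτ v)⟩
theorem T1.mul {s t : (ℕ → ℕ) → ℕ} (hs : T1 S s) (ht : T1 S t) : T1 S (fun v => s v * t v) := by
  obtain ⟨σ, hσ⟩ := hs
  obtain ⟨τ, hτ⟩ := ht
  exact ⟨.mul σ τ, fun v => congrArg₂ (· * ·) (hσ v) (hτ v)⟩
theorem T1.pr {s t : (ℕ → ℕ) → ℕ} (hs : T1 S s) (ht : T1 S t) :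
    T1 S (fun v => pr (s v) (t v)) := ((hs.add ht).mul (hs.add ht)).add hs

theorem A1.congr {R R' : (ℕ → ℕ) → Set ℕ → Prop} (h : A1 S R) (h' : ∀ v Y, R v Y ↔ R' v Y) :
    A1 S R' := by
  obtain ⟨φ, hφ⟩ := h
  exact ⟨φ, fun v Y => (hφ v Y).trans (h' v Y)⟩

theorem A1.not {R : (ℕ → ℕ) → Set ℕ → Prop} (h : A1 S R) : A1 S (fun v Y => ¬ R v Y) := by
  obtain ⟨φ, hφ⟩ := h
  exact ⟨.neg φ, fun v Y => not_congr (hφ v Y)⟩

theorem A1.and {R R' : (ℕ → ℕ) → Set ℕ → Prop} (h : A1 S R) (h' : A1 S R') :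
    A1 S (fun v Y => R v Y ∧ R' v Y) := by
  obtain ⟨φ, hφ⟩ := h
  obtain ⟨ψ, hψ⟩ := h'
  exact ⟨.and φ ψ, fun v Y => and_congr (hφ v Y) (hψ v Y)⟩

theorem A1.or {R R' : (ℕ → ℕ) → Set ℕ → Prop} (h : A1 S R) (h' : A1 S R') :
    A1 S (fun v Y => R v Y ∨ R' v Y) := (h.not.and h'.not).not.congr fun v Y => by tauto

theorem A1.imp {R R' : (ℕ → ℕ) → Set ℕ → Prop} (h : A1 S R) (h' : A1 S R') :
    A1 S (fun v Y => R v Y → R' v Y) := (h.and h'.not).not.congr fun v Y => by tauto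

theorem A1.iff {R R' : (ℕ → ℕ) → Set ℕ → Prop} (h : A1 S R) (h' : A1 S R') :
    A1 S (fun v Y => (R v Y ↔ R' v Y)) :=
  ((h.imp h').and (h'.imp h)).congr fun v Y => by tauto

theorem A1.all {P : (ℕ → ℕ) → Set ℕ → ℕ → Prop} (h : A1 S (fun w Y => P (tl w) Y (w 0))) :
    A1 S (fun v Y => ∀ x, P v Y x) := by
  obtain ⟨φ, hφ⟩ := h
  refine ⟨.all φ, fun v Y => ?_⟩
  show (∀ a : ℕ, φ.Holds Y (cons a v)) ↔ _
  exact forall_congr' fun a => hφ (cons a v) Y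

theorem A1.ex {P : (ℕ → ℕ) → Set ℕ → ℕ → Prop} (h : A1 S (fun w Y => P (tl w) Y (w 0))) :
    A1 S (fun v Y => ∃ x, P v Y x) :=
  (A1.all (P := fun v Y x => ¬ P v Y x) h.not).not.congr fun v Y => by push Not; rfl

theorem A1.memY {t : (ℕ → ℕ) → ℕ} (ht : T1 S t) : A1 S (fun v Y => t v ∈ Y) := by
  obtain ⟨τ, hτ⟩ := ht
  exact ⟨.memY τ, fun v Y => Iff.of_eq (congrArg (· ∈ Y) (hτ v))⟩

theorem A1.mem {t : (ℕ → ℕ) → ℕ} {X : Set ℕ} (hX : X ∈ S) (ht : T1 S t) :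
    A1 S (fun v _ => t v ∈ X) := by
  obtain ⟨τ, hτ⟩ := ht
  exact ⟨OpForm.mem (N := om S) τ ⟨X, hX⟩, fun v Y => Iff.of_eq (congrArg (· ∈ X) (hτ v))⟩

theorem A1.eq {s t : (ℕ → ℕ) → ℕ} (hs : T1 S s) (ht : T1 S t) : A1 S (fun v _ => s v = t v) := by
  obtain ⟨σ, hσ⟩ := hs
  obtain ⟨τ, hτ⟩ := ht
  exact ⟨.eq σ τ, fun v Y => Iff.of_eq (congrArg₂ (· = ·) (hσ v) (hτ v))⟩

theorem A1.lt {s t : (ℕ → ℕ) → ℕ} (hs : T1 S s) (ht : T1 S t) : A1 S (fun v _ => s v < t v) := by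
  obtain ⟨σ, hσ⟩ := hs
  obtain ⟨τ, hτ⟩ := ht
  exact ⟨.lt σ τ, fun v Y => Iff.of_eq (congrArg₂ (· < ·) (hσ v) (hτ v))⟩

theorem A1.const (p : Prop) : A1 S (fun _ _ => p) := by
  by_cases h : p
  · exact (A1.eq (T1.const 0) (T1.const 0)).congr fun _ _ => by simp [h]
  · exact (A1.eq (T1.const 0) (T1.const 1)).congr fun _ _ => by simp [h]

/-- substitution of terms for the variables -/
theorem A1.comp {R : (ℕ → ℕ) → Set ℕ → Prop} (h : A1 S R) {g : (ℕ → ℕ) → (ℕ → ℕ)}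
    (hg : ∀ i, T1 S (fun v => g v i)) : A1 S (fun v Y => R (g v) Y) := by
  obtain ⟨φ, hφ⟩ := h
  refine A1.congr (R := fun v Y => φ.Holds Y (g v)) ?_ fun v Y => hφ _ _
  clear hφ
  have hT : ∀ (t : Term (om S)) {g : (ℕ → ℕ) → (ℕ → ℕ)} (hg : ∀ i, T1 S (fun v => g v i)),
      T1 S (fun v => t.val (g v)) := by
    intro t g hg
    induction t with
    | var i => exact hg i
    | const a => exact T1.const a
    | zero => exact T1.const 0
    | one => exact T1.const 1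
    | add s t ih1 ih2 => exact ih1.add ih2
    | mul s t ih1 ih2 => exact ih1.mul ih2
  induction φ generalizing g with
  | eq s t => exact A1.eq (hT s hg) (hT t hg)
  | lt s t => exact A1.lt (hT s hg) (hT t hg)
  | mem t X => exact A1.mem X.2 (hT t hg)
  | memY t => exact A1.memY (hT t hg)
  | neg φ ih => exact (ih hg).not
  | and φ ψ ih1 ih2 => exact (ih1 hg).and (ih2 hg)
  | all φ ih =>
    refine A1.all (P := fun v Y a => φ.Holds Y (cons a (g v))) ?_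
    refine ih (g := fun w => cons (w 0) (g (tl w))) ?_
    intro i
    cases i with
    | zero => exact T1.var 0
    | succ i =>
      obtain ⟨τ, hτ⟩ := hg i
      refine (?_ : T1 S (fun v => g (tl v) i))
      have h2 : ∀ t : Term (om S), T1 S (fun v => t.val (tl v)) := by
        intro t
        induction t with
        | var i => exact T1.var (i + 1)
        | const a => exact T1.const a
        | zero => exact T1.const 0
        | one => exact T1.const 1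
        | add s t ih1 ih2 => exact ih1.add ih2
        | mul s t ih1 ih2 => exact ih1.mul ih2
      obtain ⟨σ, hσ⟩ := h2 τ
      exact ⟨σ, fun v => (hσ v).trans (hτ (tl v))⟩

theorem A1.ofD0 (φ : Delta0 (om S)) : A1 S (fun v _ => φ.Holds v) := by
  have hT : ∀ (t : Term (om S)), T1 S (fun v => t.val v) := fun t => ⟨t, fun _ => rfl⟩
  induction φ with
  | eq s t => exact A1.eq (hT s) (hT t)
  | lt s t => exact A1.lt (hT s) (hT t)
  | mem t X => exact A1.mem X.2 (hT t)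
  | neg φ ih => exact ih.not
  | and φ ψ ih1 ih2 => exact ih1.and ih2
  | ball t φ ih =>
    refine A1.all (P := fun v Y a => (om S).lt a (t.val v) → φ.Holds (cons a v)) ?_
    have h2 : ∀ t : Term (om S), T1 S (fun v => t.val (tl v)) := by
      intro t
      induction t with
      | var i => exact T1.var (i + 1)
      | const a => exact T1.const a
      | zero => exact T1.const 0
      | one => exact T1.const 1
      | add s t ih1 ih2 => exact ih1.add ih2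
      | mul s t ih1 ih2 => exact ih1.mul ih2
    refine A1.imp (A1.lt (T1.var 0) (h2 t)) (ih.congr fun w Y => ?_)
    exact Iff.of_eq (congrArg _ (cons_tl w).symm)

section beta

variable (hS : Beta S)
include hS

theorem Beta.ex {R : (ℕ → ℕ) → Set ℕ → Prop} (h : A1 S R) (v : ℕ → ℕ) (hY : ∃ Y, R v Y) :
    ∃ Y ∈ S, R v Y := by
  obtain ⟨φ, hφ⟩ := h
  obtain ⟨Y, hY⟩ := hY
  obtain ⟨Y', h1, h2⟩ := hS φ v ⟨Y, (hφ v Y).2 hY⟩
  exact ⟨Y', h1, (hφ v Y').1 h2⟩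

theorem Beta.comp {P : (ℕ → ℕ) → Set ℕ → Prop} (h : A1 S P) (v : ℕ → ℕ) :
    {n | P (cons n v) ∅} ∈ S := by
  -- the set variable is not used
  obtain ⟨φ, hφ⟩ := h
  have h0 : ∃ ψ : OpForm (om S), ∀ (v : ℕ → ℕ) (Y : Set ℕ), ψ.Holds Y v ↔ φ.Holds ∅ v := by
    clear hφ
    induction φ with
    | eq s t => exact ⟨.eq s t, fun _ _ => Iff.rfl⟩
    | lt s t => exact ⟨.lt s t, fun _ _ => Iff.rfl⟩
    | mem t X => exact ⟨.mem t X, fun _ _ => Iff.rfl⟩
    | memY t => exact ⟨.lt t t, fun v Y => iff_of_false (fun h => lt_irrefl _ h) (fun h => h)⟩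
    | neg φ ih =>
      obtain ⟨ψ, hψ⟩ := ih
      exact ⟨.neg ψ, fun v Y => not_congr (hψ v Y)⟩
    | and φ φ' ih1 ih2 =>
      obtain ⟨ψ, hψ⟩ := ih1
      obtain ⟨ψ', hψ'⟩ := ih2
      exact ⟨.and ψ ψ', fun v Y => and_congr (hψ v Y) (hψ' v Y)⟩
    | all φ ih =>
      obtain ⟨ψ, hψ⟩ := ih
      exact ⟨.all ψ, fun v Y => forall_congr' fun a => hψ _ _⟩
  obtain ⟨ψ, hψ⟩ := h0
  have h1 : A1 S (fun w Y => ψ.Holds Y w) := ⟨ψ, fun _ _ => Iff.rfl⟩
  have h2 : A1 S (fun v Y => ∀ n, n ∈ Y ↔ ψ.Holds Y (cons n v)) := by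
    refine A1.all (P := fun v Y n => (n ∈ Y ↔ ψ.Holds Y (cons n v))) ?_
    refine A1.iff (A1.memY (T1.var 0)) (h1.congr fun w Y => ?_)
    exact Iff.of_eq (congrArg _ (cons_tl w).symm)
  obtain ⟨Y, hY, hY'⟩ := hS.ex h2 v ⟨{n | P (cons n v) ∅}, fun n => by
    rw [hψ, hφ]; rfl⟩
  have : {n | P (cons n v) ∅} = Y := by
    ext n
    rw [hY' n, hψ, hφ]; rfl
  rw [this]
  exact hY

theorem Beta.comp1 {P : ℕ → Prop} (h : A1 S (fun v _ => P (v 0))) : {n | P n} ∈ S :=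
  hS.comp h (fun _ => 0)

theorem Beta.rca : IsModelRCA0 (om S) where
  ax_succ_ne_zero n := Nat.succ_ne_zero n
  ax_succ_inj m n h := Nat.succ.inj h
  ax_add_zero m := rfl
  ax_add_succ m n := rfl
  ax_mul_zero m := rfl
  ax_mul_succ m n := rfl
  ax_not_lt_zero m := Nat.not_lt_zero m
  ax_lt_succ m n := Nat.lt_succ_iff_lt_or_eq
  sigma1_induction θ v h0 hs n := Nat.rec h0 hs n
  delta1_comprehension θ ψ v h := by
    have h1 : A1 S (fun v _ => ∃ k, θ.Holds (cons k v)) := by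
      refine A1.ex (P := fun v Y k => θ.Holds (cons k v)) ((A1.ofD0 θ).congr fun w Y => ?_)
      exact Iff.of_eq (congrArg _ (cons_tl w).symm)
    exact hS.comp h1 v

end beta

end Pool.Agent.H787R3
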