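import Mathlib

/-!
The transfinite powers `p^α A` of an abelian group and the extension lemma in the proof of Ulm's
theorem, for countable torsion groups which need not be reduced.
-/

namespace Pool.Agent.H787R3

open Ordinal

section basic

variable {A B : Type} [AddCommGroup A] [AddCommGroup B]

/-- the subgroup `p^α A` -/
noncomputable def pw (p : ℕ) (A : Type) [AddCommGroup A] : Ordinal.{0} → AddSubgroup A :=
  WellFounded.fix Ordinal.lt_wf
    (fun α ih => ⨅ β : Set.Iio α, (ih β.1 β.2).map (nsmulAddMonoidHom p))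

theorem mem_pw {p : ℕ} {α : Ordinal.{0}} {x : A} :
    x ∈ pw p A α ↔ ∀ β < α, ∃ y ∈ pw p A β, p • y = x := by
  have h : pw p A α = ⨅ β : Set.Iio α, (pw p A β.1).map (nsmulAddMonoidHom p) := by
    unfold pw
    rw [WellFounded.fix_eq]
  rw [h, AddSubgroup.mem_iInf]
  constructor
  · intro h β hβ
    obtain ⟨y, hy, hyx⟩ := AddSubgroup.mem_map.1 (h ⟨β, hβ⟩)
    exact ⟨y, hy, by simpa using hyx⟩
  · rintro h ⟨β, hβ⟩
    obtain ⟨y, hy, hyx⟩ := h β hβ
    exact AddSubgroup.mem_map.2 ⟨y, hy, by simpa using hyx⟩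

theorem pw_anti {p : ℕ} {α β : Ordinal.{0}} (h : α ≤ β) {x : A} (hx : x ∈ pw p A β) :
    x ∈ pw p A α := by
  rw [mem_pw] at hx ⊢
  exact fun γ hγ => hx γ (lt_of_lt_of_le hγ h)

theorem mem_pw_succ {p : ℕ} {α : Ordinal.{0}} {x : A} :
    x ∈ pw p A (Order.succ α) ↔ ∃ y ∈ pw p A α, p • y = x := by
  constructor
  · intro h
    exact mem_pw.1 h α (Order.lt_succ α)
  · rintro ⟨y, hy, h⟩
    rw [mem_pw]
    intro β hβ
    exact ⟨y, pw_anti (Order.lt_succ_iff.1 hβ) hy, h⟩

theorem pw_coprime {q n : ℕ} (h : Nat.Coprime n q) {α : Ordinal.{0}} :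
    ∀ {x : A}, n • x ∈ pw q A α → x ∈ pw q A α := by
  induction α using WellFoundedLT.induction with
  | _ α ih =>
    intro x hx
    rw [mem_pw] at hx ⊢
    intro β hβ
    obtain ⟨y, hy, hyx⟩ := hx β hβ
    have hxβ : x ∈ pw q A β := ih β hβ (mem_pw.2 fun γ hγ => hx γ (hγ.trans hβ))
    have hb := Nat.gcd_eq_gcd_ab n q
    rw [h] at hb
    refine ⟨(Nat.gcdA n q) • y + (Nat.gcdB n q) • x,
      (pw q A β).add_mem ((pw q A β).zsmul_mem hy _) ((pw q A β).zsmul_mem hxβ _), ?_⟩
    have h1 : (1 : ℤ) • x = x := one_zsmul x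
    have h2 : ((n : ℤ) * Nat.gcdA n q + (q : ℤ) * Nat.gcdB n q) • x = x := by
      rw [← hb]; simp
    calc q • ((Nat.gcdA n q) • y + (Nat.gcdB n q) • x)
        = (Nat.gcdA n q) • (q • y) + (Nat.gcdB n q) • (q • x) := by
          rw [smul_add, smul_comm q (Nat.gcdA n q) y, smul_comm q (Nat.gcdB n q) x]
      _ = (Nat.gcdA n q) • (n • x) + (Nat.gcdB n q) • (q • x) := by rw [hyx]
      _ = ((n : ℤ) * Nat.gcdA n q + (q : ℤ) * Nat.gcdB n q) • x := by
          rw [add_smul, mul_comm (n : ℤ), mul_comm (q : ℤ), mul_smul, mul_smul, natCast_zsmul,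
            natCast_zsmul]
      _ = x := h2

theorem pw_smul_iff {q n : ℕ} (h : Nat.Coprime n q) {α : Ordinal.{0}} {x : A} :
    n • x ∈ pw q A α ↔ x ∈ pw q A α :=
  ⟨pw_coprime h, fun hx => (pw q A α).nsmul_mem hx n⟩

/-- the intersection of all `p^α A` -/
noncomputable def pinf (p : ℕ) (A : Type) [AddCommGroup A] : AddSubgroup A :=
  ⨅ α : Ordinal.{0}, pw p A α

theorem mem_pinf {p : ℕ} {x : A} : x ∈ pinf p A ↔ ∀ α, x ∈ pw p A α := by
  unfold pinf; rw [AddSubgroup.mem_iInf]

theorem exists_stable (p : ℕ) (A : Type) [AddCommGroup A] :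
    ∃ l : Ordinal.{0}, ∀ x : A, x ∈ pw p A l → x ∈ pinf p A := by
  classical
  let f : A → Ordinal.{0} := fun x => if h : ∃ α, x ∉ pw p A α then h.choose else 0
  refine ⟨⨆ x, f x, fun x hx => ?_⟩
  rw [mem_pinf]
  by_contra hc
  push Not at hc
  have h1 : x ∉ pw p A (f x) := by
    simp only [f]
    rw [dif_pos hc]
    exact hc.choose_spec
  exact h1 (pw_anti (Ordinal.le_iSup f x) hx)

theorem pinf_div {p : ℕ} {x : A} (hx : x ∈ pinf p A) : ∃ y ∈ pinf p A, p • y = x := by
  obtain ⟨l, hl⟩ := exists_stable p A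
  obtain ⟨y, hy, h⟩ := mem_pw_succ.1 (mem_pinf.1 hx (Order.succ l))
  exact ⟨y, hl y hy, h⟩

/-- the elements `x` of `H` with `p x = 0` -/
def tor (p : ℕ) (H : AddSubgroup A) : AddSubgroup A := H ⊓ (nsmulAddMonoidHom p : A →+ A).ker

theorem mem_tor {p : ℕ} {H : AddSubgroup A} {x : A} : x ∈ tor p H ↔ x ∈ H ∧ p • x = 0 := by
  unfold tor
  rw [AddSubgroup.mem_inf, AddMonoidHom.mem_ker]
  simp

/-- the Ulm factor -/
abbrev UF (p : ℕ) (A : Type) [AddCommGroup A] (α : Ordinal.{0}) : Type :=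
  (tor p (pw p A α)) ⧸ (tor p (pw p A (Order.succ α))).addSubgroupOf (tor p (pw p A α))

/-- the Ulm invariants, as cardinalities of the Ulm factors (`0` if infinite) -/
noncomputable def ui (p : ℕ) (A : Type) [AddCommGroup A] (α : Ordinal.{0}) : ℕ :=
  Nat.card (UF p A α)

/-- the last Ulm invariant -/
noncomputable def uinf (p : ℕ) (A : Type) [AddCommGroup A] : ℕ := Nat.card (tor p (pinf p A))

theorem UF_eq {p : ℕ} {α : Ordinal.{0}} {x y : tor p (pw p A α)} :
    (QuotientAddGroup.mk x : UF p A α) = QuotientAddGroup.mk y ↔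
      (x : A) - (y : A) ∈ pw p A (Order.succ α) := by
  rw [QuotientAddGroup.eq, AddSubgroup.mem_addSubgroupOf, mem_tor]
  constructor
  · rintro ⟨h, -⟩
    have := (pw p A (Order.succ α)).neg_mem h
    simpa [sub_eq_add_neg, add_comm] using this
  · intro h
    have h1 := (pw p A (Order.succ α)).neg_mem h
    refine ⟨by simpa [sub_eq_add_neg, add_comm] using h1, ?_⟩
    have hx := (mem_tor.1 x.2).2
    have hy := (mem_tor.1 y.2).2
    simp [smul_add, hx, hy]

end basic

section good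

variable {A B : Type} [AddCommGroup A] [AddCommGroup B]

/-- finite partial isomorphisms that preserve all heights -/
structure Good (G : AddSubgroup (A × B)) : Prop where
  fin : (G : Set (A × B)).Finite
  zero : ∀ x ∈ G, x.1 = 0 ↔ x.2 = 0
  ht : ∀ p : ℕ, p.Prime → ∀ α, ∀ x ∈ G, (x.1 ∈ pw p A α ↔ x.2 ∈ pw p B α)

variable {G : AddSubgroup (A × B)} {p : ℕ}

theorem Good.inj1 (hG : Good G) {a : A} {b b' : B} (h : (a, b) ∈ G) (h' : (a, b') ∈ G) :
    b = b' := by
  have h1 := G.sub_mem h h'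
  have h2 := (hG.zero _ h1).1 (by simp)
  simpa [sub_eq_zero] using h2

theorem Good.inj2 (hG : Good G) {a a' : A} {b : B} (h : (a, b) ∈ G) (h' : (a', b) ∈ G) :
    a = a' := by
  have h1 := G.sub_mem h h'
  have h2 := (hG.zero _ h1).2 (by simp)
  simpa [sub_eq_zero] using h2

/-- `b` is a suitable image of `a` -/
structure Img (G : AddSubgroup (A × B)) (p : ℕ) (a : A) (z b : B) : Prop where
  eq : p • b = z
  notMem : ∀ s, (s, b) ∉ G
  ht : ∀ α, ∀ x ∈ G, (a + x.1 ∈ pw p A α ↔ b + x.2 ∈ pw p B α)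

theorem Img.shift {a : A} {z b : B} {s : A} {t : B} (hst : (s, t) ∈ G)
    (h : Img G p (a + s) (z + p • t) b) : Img G p a z (b - t) where
  eq := by rw [smul_sub, h.eq]; simp
  notMem s' hs' := h.notMem (s' + s) (by
    have := G.add_mem hs' hst
    simpa using this)
  ht α x hx := by
    have h1 := h.ht α (x - (s, t)) (G.sub_mem hx hst)
    have e1 : a + s + (x - (s, t)).1 = a + x.1 := by
      simp only [Prod.fst_sub]; abel
    have e2 : b + (x - (s, t)).2 = b - t + x.2 := by
      simp only [Prod.snd_sub]; abel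
    rw [e1, e2] at h1
    exact h1

/-- first case: infinite height -/
theorem img_inf (hp : p.Prime) (hG : Good G) (hu : uinf p A = uinf p B) {a : A} {z : B}
    (ha : ∀ y, (a, y) ∉ G) (haz : (p • a, z) ∈ G) (hai : a ∈ pinf p A) : ∃ b, Img G p a z b := by
  classical
  have hz : z ∈ pinf p B := mem_pinf.2 fun α =>
    (hG.ht p hp α _ haz).1 ((pw p A α).nsmul_mem (mem_pinf.1 hai α) p)
  obtain ⟨b0, hb0, hb0z⟩ := pinf_div hz
  -- it suffices to find `b` outside of `G`
  have key : ∀ b, b ∈ pinf p B → p • b = z → (∀ s, (s, b) ∉ G) → Img G p a z b := by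
    intro b hb hbz hbG
    refine ⟨hbz, hbG, fun α x hx => ?_⟩
    rw [(pw p A α).add_mem_cancel_left (mem_pinf.1 hai α),
      (pw p B α).add_mem_cancel_left (mem_pinf.1 hb α)]
    exact hG.ht p hp α x hx
  by_cases h0 : ∀ s, (s, b0) ∉ G
  · exact ⟨b0, key b0 hb0 hb0z h0⟩
  push Not at h0
  obtain ⟨s0, hs0⟩ := h0
  have hs0i : s0 ∈ pinf p A := mem_pinf.2 fun α => (hG.ht p hp α _ hs0).2 (mem_pinf.1 hb0 α)
  have hps0 : p • s0 = p • a := by
    have h1 := G.nsmul_mem hs0 p
    have h2 : (p • s0, z) ∈ G := by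
      have : p • (s0, b0) = (p • s0, z) := by rw [← hb0z]; rfl
      rwa [this] at h1
    exact hG.inj2 h2 haz
  have hc : a - s0 ∈ tor p (pinf p A) :=
    mem_tor.2 ⟨(pinf p A).sub_mem hai hs0i, by rw [smul_sub, hps0]; exact sub_self _⟩
  have hcG : ∀ y, (a - s0, y) ∉ G := by
    intro y hy
    refine ha (y + b0) ?_
    have := G.add_mem hy hs0
    simpa using this
  have claim : ∃ b1 ∈ tor p (pinf p B), ∀ s, (s, b1) ∉ G := by
    by_contra hcon
    push Not at hcon
    choose F hF using hcon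
    have hfinB : Finite (tor p (pinf p B)) := by
      have : Set.Finite ((tor p (pinf p B) : AddSubgroup B) : Set B) := by
        refine (hG.fin.image Prod.snd).subset ?_
        intro y hy
        exact ⟨_, hF y hy, rfl⟩
      exact this.to_subtype
    have hFt : ∀ (y : tor p (pinf p B)), F y.1 y.2 ∈ tor p (pinf p A) := by
      intro y
      have hy := mem_tor.1 y.2
      refine mem_tor.2 ⟨mem_pinf.2 fun α =>
        (hG.ht p hp α _ (hF y.1 y.2)).2 (mem_pinf.1 hy.1 α), ?_⟩
      have h1 := G.nsmul_mem (hF y.1 y.2) p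
      have h2 := (hG.zero _ h1).2 (by simpa using hy.2)
      simpa using h2
    let Φ : tor p (pinf p B) → tor p (pinf p A) := fun y => ⟨F y.1 y.2, hFt y⟩
    have hΦ : Function.Injective Φ := by
      intro y y' h
      have h1 : F y.1 y.2 = F y'.1 y'.2 := congrArg Subtype.val h
      have h2 := hF y.1 y.2
      rw [h1] at h2
      exact Subtype.ext (hG.inj1 h2 (hF y'.1 y'.2))
    have hcard : Nat.card (tor p (pinf p A)) = Nat.card (tor p (pinf p B)) := hu
    have hfinA : Finite (tor p (pinf p A)) := by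
      refine Nat.finite_of_card_ne_zero ?_
      rw [hcard]
      exact Nat.card_pos.ne'
    have hsurj : Function.Surjective Φ := by
      have hbij := (Nat.bijective_iff_injective_and_card Φ).2 ⟨hΦ, hcard.symm⟩
      exact hbij.2
    obtain ⟨y, hy⟩ := hsurj ⟨a - s0, hc⟩
    have h1 : F y.1 y.2 = a - s0 := congrArg Subtype.val hy
    have h2 := hF y.1 y.2
    rw [h1] at h2
    exact hcG _ h2
  obtain ⟨b1, hb1, hb1G⟩ := claim
  have hb1' := mem_tor.1 hb1
  refine ⟨b0 + b1, key _ ((pinf p B).add_mem hb0 hb1'.1) ?_ ?_⟩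
  · rw [smul_add, hb0z, hb1'.2, add_zero]
  · intro s hs
    refine hb1G (s - s0) ?_
    have := G.sub_mem hs hs0
    simpa using this

/-- conclusion in the second case -/
theorem img_of (hp : p.Prime) (hG : Good G) {a : A} {z b : B} {α : Ordinal.{0}}
    (ha : a ∈ pw p A α) (ha' : ∀ x ∈ G, a + x.1 ∉ pw p A (Order.succ α))
    (hb : b ∈ pw p B α) (hb' : ∀ x ∈ G, b + x.2 ∉ pw p B (Order.succ α)) (hbz : p • b = z) :
    Img G p a z b where
  eq := hbz
  notMem s hs := by
    have h1 := hb' _ (G.neg_mem hs)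
    apply h1
    have : b + (-(s, b)).2 = 0 := by simp
    rw [this]
    exact (pw p B _).zero_mem
  ht γ x hx := by
    rcases le_or_gt γ α with h | h
    · rw [(pw p A γ).add_mem_cancel_left (pw_anti h ha),
        (pw p B γ).add_mem_cancel_left (pw_anti h hb)]
      exact hG.ht p hp γ x hx
    · have h2 : Order.succ α ≤ γ := Order.succ_le_of_lt h
      exact iff_of_false (fun h3 => ha' x hx (pw_anti h2 h3)) (fun h3 => hb' x hx (pw_anti h2 h3))

/-- the finite part of the Ulm factor -/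
theorem exists_proper (hp : p.Prime) (hG : Good G) {α : Ordinal.{0}} (hu : ui p A α = ui p B α)
    {w : A} (hw : w ∈ tor p (pw p A α)) (hw' : ∀ x ∈ G, w + x.1 ∉ pw p A (Order.succ α)) :
    ∃ w' ∈ tor p (pw p B α), ∀ x ∈ G, w' + x.2 ∉ pw p B (Order.succ α) := by
  classical
  by_contra hcon
  push Not at hcon
  -- for each `w'` a partner
  have h1 : ∀ w' : tor p (pw p B α), ∃ x ∈ G, ∃ u ∈ tor p (pw p A α),
      w'.1 + x.2 ∈ pw p B (Order.succ α) ∧ u + x.1 ∈ pw p A (Order.succ α) := by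
    intro w'
    obtain ⟨x, hx, hx'⟩ := hcon w'.1 w'.2
    obtain ⟨hw1, hw2⟩ := mem_tor.1 w'.2
    have ht : x.2 ∈ pw p B α := by
      have := (pw p B α).sub_mem (pw_anti (Order.le_succ α) hx') hw1
      simpa using this
    have hs : x.1 ∈ pw p A α := (hG.ht p hp α x hx).2 ht
    have hpt : p • x.2 ∈ pw p B (Order.succ (Order.succ α)) := by
      refine mem_pw_succ.2 ⟨_, hx', ?_⟩
      rw [smul_add, hw2, zero_add]
    have hps : p • x.1 ∈ pw p A (Order.succ (Order.succ α)) :=
      (hG.ht p hp _ (p • x) (G.nsmul_mem hx p)).2 hpt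
    obtain ⟨v, hv, hpv⟩ := mem_pw_succ.1 hps
    refine ⟨x, hx, v - x.1, mem_tor.2 ⟨(pw p A α).sub_mem (pw_anti (Order.le_succ α) hv) hs, ?_⟩,
      hx', ?_⟩
    · rw [smul_sub, hpv]; exact sub_self _
    · simpa using hv
  choose X hX U hU hXB hUA using h1
  have hfinB : Finite (UF p B α) := by
    have : Finite (G : Set (A × B)) := hG.fin
    refine Finite.of_injective (fun c : UF p B α => (⟨X c.out, hX c.out⟩ : (G : Set (A × B)))) ?_
    intro c c' h
    have hx : X c.out = X c'.out := congrArg Subtype.val h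
    have h2 := (pw p B (Order.succ α)).sub_mem (hXB c.out) (hXB c'.out)
    rw [hx] at h2
    have h3 : (QuotientAddGroup.mk c.out : UF p B α) = QuotientAddGroup.mk c'.out := by
      rw [UF_eq]; simpa using h2
    rwa [QuotientAddGroup.out_eq', QuotientAddGroup.out_eq'] at h3
  let Φ : UF p B α → UF p A α := fun c => QuotientAddGroup.mk ⟨U c.out, hU c.out⟩
  have hΦ : Function.Injective Φ := by
    intro c c' h
    have h2 := UF_eq.1 h
    simp only at h2
    -- difference of partners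
    have h3 := (pw p A (Order.succ α)).sub_mem (hUA c.out) (hUA c'.out)
    have h4 : (X c.out).1 - (X c'.out).1 ∈ pw p A (Order.succ α) := by
      have := (pw p A (Order.succ α)).sub_mem h3 h2
      have e : (U c.out + (X c.out).1 - (U c'.out + (X c'.out).1)) - (U c.out - U c'.out) =
          (X c.out).1 - (X c'.out).1 := by abel
      rwa [e] at this
    have h5 : (X c.out).2 - (X c'.out).2 ∈ pw p B (Order.succ α) :=
      (hG.ht p hp _ (X c.out - X c'.out) (G.sub_mem (hX _) (hX _))).1 h4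
    have h6 := (pw p B (Order.succ α)).sub_mem (hXB c.out) (hXB c'.out)
    have h7 : (c.out : B) - (c'.out : B) ∈ pw p B (Order.succ α) := by
      have := (pw p B (Order.succ α)).sub_mem h6 h5
      have e : ((c.out : B) + (X c.out).2 - ((c'.out : B) + (X c'.out).2)) -
          ((X c.out).2 - (X c'.out).2) = (c.out : B) - (c'.out : B) := by abel
      rwa [e] at this
    have h8 : (QuotientAddGroup.mk c.out : UF p B α) = QuotientAddGroup.mk c'.out := UF_eq.2 h7
    rwa [QuotientAddGroup.out_eq', QuotientAddGroup.out_eq'] at h8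
  have hcard : Nat.card (UF p A α) = Nat.card (UF p B α) := hu
  have hfinA : Finite (UF p A α) := by
    refine Nat.finite_of_card_ne_zero ?_
    rw [hcard]
    exact Nat.card_pos.ne'
  have hbij := (Nat.bijective_iff_injective_and_card Φ).2 ⟨hΦ, hcard.symm⟩
  obtain ⟨c, hc⟩ := hbij.2 (QuotientAddGroup.mk ⟨w, hw⟩)
  have h2 := UF_eq.1 hc
  simp only at h2
  apply hw' (X c.out) (hX c.out)
  have := (pw p A (Order.succ α)).sub_mem (hUA c.out) h2
  have e : U c.out + (X c.out).1 - (U c.out - w) = w + (X c.out).1 := by abel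
  rwa [e] at this

/-- the extension lemma -/
theorem exists_img (hp : p.Prime) (hG : Good G) (hu : ∀ α, ui p A α = ui p B α)
    (hi : uinf p A = uinf p B) {a : A} {z : B} (ha : ∀ y, (a, y) ∉ G) (haz : (p • a, z) ∈ G) :
    ∃ b, Img G p a z b := by
  classical
  have shiftN : ∀ {s : A} {t : B}, (s, t) ∈ G → ∀ y, (a + s, y) ∉ G := by
    intro s t hst y hy
    refine ha (y - t) ?_
    have := G.sub_mem hy hst
    simpa using this
  have shiftM : ∀ {s : A} {t : B}, (s, t) ∈ G → (p • (a + s), z + p • t) ∈ G := by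
    intro s t hst
    have := G.add_mem haz (G.nsmul_mem hst p)
    rw [smul_add]
    exact this
  by_cases hI : ∀ α, ∃ x ∈ G, a + x.1 ∈ pw p A α
  · obtain ⟨l, hl⟩ := exists_stable p A
    obtain ⟨⟨s, t⟩, hx, hxl⟩ := hI l
    obtain ⟨b, hb⟩ := img_inf hp hG hi (shiftN hx) (shiftM hx) (hl _ hxl)
    exact ⟨b - t, hb.shift hx⟩
  -- the largest height
  have hII : ∃ α, (∃ x ∈ G, a + x.1 ∈ pw p A α) ∧ ∀ x ∈ G, a + x.1 ∉ pw p A (Order.succ α) := by
    push Not at hI
    obtain ⟨γ0, hγ0⟩ := hI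
    let P : Set Ordinal.{0} := {γ | ∀ x ∈ G, a + x.1 ∉ pw p A γ}
    have hPne : P.Nonempty := ⟨γ0, hγ0⟩
    set γ := Ordinal.lt_wf.min P hPne with hγ
    have hγP : γ ∈ P := Ordinal.lt_wf.min_mem P hPne
    have hγm : ∀ β < γ, β ∉ P := fun β hβ hβP => Ordinal.lt_wf.not_lt_min P hβP hβ
    -- for each x a stage
    have h1 : ∀ x ∈ G, ∃ β < γ, a + x.1 ∉ pw p A (Order.succ β) := by
      intro x hx
      have := hγP x hx
      rw [mem_pw] at this
      push Not at this
      obtain ⟨β, hβ, h⟩ := this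
      refine ⟨β, hβ, fun h2 => ?_⟩
      obtain ⟨y, hy, hyx⟩ := mem_pw_succ.1 h2
      exact h y hy hyx
    choose! β hβ hβ' using h1
    have hne : (hG.fin.toFinset).Nonempty := ⟨0, by simp [G.zero_mem]⟩
    obtain ⟨x0, hx0, hmax⟩ := Finset.exists_max_image hG.fin.toFinset β hne
    have hx0G : x0 ∈ G := by simpa using hx0
    refine ⟨β x0, ?_, ?_⟩
    · have := hγm (β x0) (hβ x0 hx0G)
      simp only [P, Set.mem_ofPred_eq] at this
      push Not at this
      exact this
    · intro x hx hmem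
      have h2 : β x ≤ β x0 := hmax x (by simpa using hx)
      exact hβ' x hx (pw_anti (Order.succ_le_succ h2) hmem)
  obtain ⟨α, ⟨x1, hx1, hx1α⟩, hα⟩ := hII
  -- choose the shift
  have hch : ∃ s t, (s, t) ∈ G ∧ a + s ∈ pw p A α ∧
      (p • (a + s) ∈ pw p A (Order.succ (Order.succ α)) ∨
        ∀ x ∈ G, a + x.1 ∈ pw p A α → p • (a + x.1) ∉ pw p A (Order.succ (Order.succ α))) := by
    by_cases h : ∃ x ∈ G, a + x.1 ∈ pw p A α ∧ p • (a + x.1) ∈ pw p A (Order.succ (Order.succ α))
    · obtain ⟨x, hx, h1, h2⟩ := h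
      exact ⟨x.1, x.2, hx, h1, Or.inl h2⟩
    · push Not at h
      exact ⟨x1.1, x1.2, hx1, hx1α, Or.inr h⟩
  obtain ⟨s, t, hst, has, hor⟩ := hch
  have hα' : ∀ x ∈ G, a + s + x.1 ∉ pw p A (Order.succ α) := by
    intro x hx h
    refine hα ((s, t) + x) (G.add_mem hst hx) ?_
    simpa [add_assoc] using h
  have hzz := shiftM hst
  set z' := z + p • t with hz'
  suffices h : ∃ b, b ∈ pw p B α ∧ (∀ x ∈ G, b + x.2 ∉ pw p B (Order.succ α)) ∧ p • b = z' by
    obtain ⟨b, h1, h2, h3⟩ := h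
    exact ⟨b - t, (img_of hp hG has hα' h1 h2 h3).shift hst⟩
  rcases hor with h | h
  · -- second subcase
    obtain ⟨v, hv, hpv⟩ := mem_pw_succ.1 h
    have hw : a + s - v ∈ tor p (pw p A α) :=
      mem_tor.2 ⟨(pw p A α).sub_mem has (pw_anti (Order.le_succ α) hv), by
        rw [smul_sub, hpv]; exact sub_self _⟩
    have hw' : ∀ x ∈ G, a + s - v + x.1 ∉ pw p A (Order.succ α) := by
      intro x hx hmem
      apply hα' x hx
      have := (pw p A (Order.succ α)).add_mem hmem hv
      have e : a + s - v + x.1 + v = a + s + x.1 := by abel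
      rwa [e] at this
    obtain ⟨w', hw1, hw2⟩ := exists_proper hp hG (hu α) hw hw'
    have hw1' := mem_tor.1 hw1
    have hz2 : z' ∈ pw p B (Order.succ (Order.succ α)) := (hG.ht p hp _ _ hzz).1 h
    obtain ⟨v', hv', hpv'⟩ := mem_pw_succ.1 hz2
    refine ⟨w' + v', (pw p B α).add_mem hw1'.1 (pw_anti (Order.le_succ α) hv'), ?_, ?_⟩
    · intro x hx hmem
      apply hw2 x hx
      have := (pw p B (Order.succ α)).sub_mem hmem hv'
      have e : w' + v' + x.2 - v' = w' + x.2 := by abel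
      rwa [e] at this
    · rw [smul_add, hw1'.2, zero_add, hpv']
  · -- first subcase
    have hz1 : z' ∈ pw p B (Order.succ α) :=
      (hG.ht p hp _ _ hzz).1 (mem_pw_succ.2 ⟨a + s, has, rfl⟩)
    obtain ⟨b, hb, hbz⟩ := mem_pw_succ.1 hz1
    refine ⟨b, hb, ?_, hbz⟩
    intro x hx hmem
    have hxB : x.2 ∈ pw p B α := by
      have := (pw p B α).sub_mem (pw_anti (Order.le_succ α) hmem) hb
      simpa using this
    have hxA : x.1 ∈ pw p A α := (hG.ht p hp α x hx).2 hxB
    have hsx : (s, t) + x ∈ G := G.add_mem hst hx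
    refine h ((s, t) + x) hsx ?_ ?_
    · have := (pw p A α).add_mem has hxA
      simpa [add_assoc] using this
    · have h2 : p • (b + x.2) ∈ pw p B (Order.succ (Order.succ α)) :=
        mem_pw_succ.2 ⟨_, hmem, rfl⟩
      have h3 : (p • (a + s) + p • x.1, z' + p • x.2) ∈ G := G.add_mem hzz (G.nsmul_mem hx p)
      have h4 := (hG.ht p hp (Order.succ (Order.succ α)) _ h3).2 (by
        simpa [smul_add, hbz] using h2)
      simpa [smul_add, add_assoc] using h4

end good

end Pool.Agent.H787R3
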