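import Mathlib
import Pool.Agent.H787R3.Ulm1

/-!
Ulm's theorem for countable torsion groups (not necessarily reduced), by back and forth.
-/

namespace Pool.Agent.H787R3

open Ordinal

section ext

variable {A B : Type} [AddCommGroup A] [AddCommGroup B]
variable {G : AddSubgroup (A × B)} {p : ℕ}

theorem mem_sup_zm {x : A × B} {c : A × B} :
    x ∈ G ⊔ AddSubgroup.zmultiples c ↔ ∃ g ∈ G, ∃ n : ℤ, x = g + n • c := by
  rw [AddSubgroup.mem_sup]
  constructor
  · rintro ⟨g, hg, y, hy, rfl⟩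
    obtain ⟨n, rfl⟩ := AddSubgroup.mem_zmultiples_iff.1 hy
    exact ⟨g, hg, n, rfl⟩
  · rintro ⟨g, hg, n, rfl⟩
    exact ⟨g, hg, _, AddSubgroup.mem_zmultiples_iff.2 ⟨n, rfl⟩, rfl⟩

theorem mem_sup_nat (hp : p.Prime) {x : A × B} {c : A × B} (hc : p • c ∈ G) :
    x ∈ G ⊔ AddSubgroup.zmultiples c ↔ ∃ g ∈ G, ∃ n : ℕ, n < p ∧ x = g + n • c := by
  rw [mem_sup_zm]
  constructor
  · rintro ⟨g, hg, n, rfl⟩
    have hp0 : (p : ℤ) ≠ 0 := by exact_mod_cast hp.ne_zero
    refine ⟨g + (n / p) • (p • c), G.add_mem hg (G.zsmul_mem hc _), (n % p).toNat, ?_, ?_⟩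
    · have h1 := Int.emod_lt_of_pos n (by exact_mod_cast hp.pos : (0 : ℤ) < p)
      have h2 := Int.emod_nonneg n hp0
      omega
    · have h2 := Int.emod_nonneg n hp0
      have h3 : (((n % p).toNat : ℕ) : ℤ) = n % p := Int.toNat_of_nonneg h2
      rw [add_assoc]
      congr 1
      rw [← natCast_zsmul c (n % p).toNat, h3, ← natCast_zsmul c p, ← mul_smul, ← add_smul]
      congr 1
      rw [mul_comm]
      exact (Int.mul_ediv_add_emod n p).symm
  · rintro ⟨g, hg, n, -, rfl⟩
    exact ⟨g, hg, n, by rw [natCast_zsmul]⟩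

theorem Good.extend (hp : p.Prime) (hG : Good G) {a : A} {z b : B} (ha : ∀ y, (a, y) ∉ G)
    (haz : (p • a, z) ∈ G) (h : Img G p a z b) :
    Good (G ⊔ AddSubgroup.zmultiples (a, b)) := by
  classical
  have hc : p • (a, b) ∈ G := by
    have : p • (a, b) = (p • a, z) := by rw [← h.eq]; rfl
    rw [this]; exact haz
  have cop : ∀ k : ℕ, 0 < k → k < p → Nat.Coprime k p := fun k h0 h1 =>
    (by
      rw [Nat.coprime_comm, hp.coprime_iff_not_dvd]
      exact Nat.not_dvd_of_pos_of_lt h0 h1)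
  -- Bezout
  have bez : ∀ k : ℕ, 0 < k → k < p → ∃ u : ℤ, ∃ v : ℤ, u * k + v * p = 1 := by
    intro k h0 h1
    have := Nat.gcd_eq_gcd_ab k p
    rw [cop k h0 h1] at this
    exact ⟨Nat.gcdA k p, Nat.gcdB k p, by push_cast at this; linarith⟩
  refine ⟨?_, ?_, ?_⟩
  · have : ((G ⊔ AddSubgroup.zmultiples (a, b) : AddSubgroup (A × B)) : Set (A × B)) ⊆
        Set.image2 (fun g n => g + n • (a, b)) (G : Set (A × B)) (Set.Iio p) := by
      intro x hx
      obtain ⟨g, hg, n, hn, rfl⟩ := (mem_sup_nat hp hc).1 hx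
      exact ⟨g, hg, n, hn, rfl⟩
    exact (Set.Finite.image2 _ hG.fin (Set.finite_Iio p)).subset this
  · intro x hx
    obtain ⟨g, hg, n, hn, rfl⟩ := (mem_sup_nat hp hc).1 hx
    rcases Nat.eq_zero_or_pos n with rfl | hn0
    · simpa using hG.zero g hg
    · obtain ⟨u, v, huv⟩ := bez n hn0 hn
      constructor
      · intro h0
        exfalso
        -- `a` is in the projection
        have h1 : (a, -(u • g.2) + v • z) ∈ G := by
          have h2 : u • (-g) + v • (p • (a, b)) ∈ G :=
            G.add_mem (G.zsmul_mem (G.neg_mem hg) u) (G.zsmul_mem hc v)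
          have h3 : u • (-g) + v • (p • (a, b)) = (a, -(u • g.2) + v • z) := by
            have h0' : g.1 + n • a = 0 := h0
            have hg1 : -g.1 = n • a := (eq_neg_of_add_eq_zero_right h0').symm
            ext
            · show u • (-g.1) + v • (p • a) = a
              rw [hg1, ← natCast_zsmul, ← natCast_zsmul a p, ← mul_smul, ← mul_smul, ← add_smul,
                huv, one_smul]
            · show u • (-g.2) + v • (p • b) = -(u • g.2) + v • z
              rw [h.eq, smul_neg]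
          rwa [h3] at h2
        exact ha _ h1
      · intro h0
        exfalso
        have h1 : (-(u • g.1) + v • (p • a), b) ∈ G := by
          have h2 : u • (-g) + v • (p • (a, b)) ∈ G :=
            G.add_mem (G.zsmul_mem (G.neg_mem hg) u) (G.zsmul_mem hc v)
          have h3 : u • (-g) + v • (p • (a, b)) = (-(u • g.1) + v • (p • a), b) := by
            have h0' : g.2 + n • b = 0 := h0
            have hg1 : -g.2 = n • b := (eq_neg_of_add_eq_zero_right h0').symm
            ext
            · show u • (-g.1) + v • (p • a) = -(u • g.1) + v • (p • a)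
              rw [smul_neg]
            · show u • (-g.2) + v • (p • b) = b
              rw [hg1, ← natCast_zsmul, ← natCast_zsmul b p, ← mul_smul, ← mul_smul, ← add_smul,
                huv, one_smul]
          rwa [h3] at h2
        exact h.notMem _ h1
  · intro q hq α x hx
    obtain ⟨g, hg, n, hn, rfl⟩ := (mem_sup_nat hp hc).1 hx
    rcases Nat.eq_zero_or_pos n with rfl | hn0
    · simpa using hG.ht q hq α g hg
    · by_cases hqp : q = p
      · subst hqp
        -- multiply by an inverse of `n`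
        have hcop := cop n hn0 hn
        obtain ⟨m, -, hm⟩ := Nat.exists_mul_mod_eq_one_of_coprime hcop hp.one_lt
        have hmcop : Nat.Coprime m q := by
          rw [Nat.coprime_comm, hq.coprime_iff_not_dvd]
          intro hd
          have : n * m % q = 0 := Nat.mod_eq_zero_of_dvd (hd.mul_left n)
          omega
        have hdiv : n * m = q * (n * m / q) + 1 := by
          have := Nat.div_add_mod (n * m) q
          rw [hm] at this
          exact this.symm
        set l := n * m / q with hl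
        have hy : m • g + l • (q • (a, b)) ∈ G := G.add_mem (G.nsmul_mem hg m) (G.nsmul_mem hc l)
        have h1 := h.ht α _ hy
        have e : m • (g + n • (a, b)) = (a, b) + (m • g + l • (q • (a, b))) := by
          have e1 : m • (n • (a, b)) = l • (q • (a, b)) + (a, b) := by
            rw [← mul_smul, mul_comm m n, hdiv, add_smul, one_smul, mul_comm q l, mul_smul]
          rw [smul_add, e1]; abel
        have h2 : m • (g + n • (a, b)).1 = a + (m • g + l • (q • (a, b))).1 :=
          congrArg Prod.fst e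
        have h3 : m • (g + n • (a, b)).2 = b + (m • g + l • (q • (a, b))).2 :=
          congrArg Prod.snd e
        rw [← pw_smul_iff hmcop, ← pw_smul_iff (x := (g + n • (a, b)).2) hmcop, h2, h3]
        exact h1
      · have hpq : Nat.Coprime p q := (Nat.coprime_primes hp hq).2 (fun e => hqp e.symm)
        have hmem : p • (g + n • (a, b)) ∈ G := by
          have e : p • (g + n • (a, b)) = p • g + n • (p • (a, b)) := by
            rw [smul_add, smul_comm]
          rw [e]
          exact G.add_mem (G.nsmul_mem hg p) (G.nsmul_mem hc n)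
        have h1 := hG.ht q hq α _ hmem
        rw [← pw_smul_iff hpq, ← pw_smul_iff (x := (g + n • (a, b)).2) hpq]
        exact h1

/-- the invariants agree -/
structure SameInv (A B : Type) [AddCommGroup A] [AddCommGroup B] : Prop where
  ui : ∀ p : ℕ, p.Prime → ∀ α, ui p A α = ui p B α
  uinf : ∀ p : ℕ, p.Prime → uinf p A = uinf p B

theorem SameInv.symm (h : SameInv A B) : SameInv B A :=
  ⟨fun p hp α => (h.ui p hp α).symm, fun p hp => (h.uinf p hp).symm⟩

theorem Good.exists_ext (hI : SameInv A B) (hG : Good G) (a : A) (n : ℕ) (hn : 0 < n)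
    (hna : ∃ y, (n • a, y) ∈ G) : ∃ G', G ≤ G' ∧ Good G' ∧ ∃ b, (a, b) ∈ G' := by
  classical
  induction n using Nat.strong_induction_on generalizing G with
  | _ n ih =>
    rcases Nat.lt_or_ge 1 n with h1 | h1
    · obtain ⟨p, hp, m, rfl⟩ := Nat.exists_prime_and_dvd (n := n) (by omega)
      have hm0 : 0 < m := by
        rcases Nat.eq_zero_or_pos m with h0 | h0
        · subst h0; simp at hn
        · exact h0
      have hmlt : m < p * m := by
        have := hp.one_lt
        nlinarith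
      obtain ⟨z, hz⟩ := hna
      rw [mul_smul] at hz
      by_cases hm : ∃ y, (m • a, y) ∈ G
      · exact ih m hmlt hG hm0 hm
      · push Not at hm
        obtain ⟨b, hb⟩ := exists_img hp hG (hI.ui p hp) (hI.uinf p hp) hm hz
        have hG' := hG.extend hp hm hz hb
        have hmem : (m • a, b) ∈ G ⊔ AddSubgroup.zmultiples (m • a, b) :=
          mem_sup_zm.2 ⟨0, G.zero_mem, 1, by simp⟩
        obtain ⟨G', h1, h2, h3⟩ := ih m hmlt hG' hm0 ⟨b, hmem⟩
        exact ⟨G', le_sup_left.trans h1, h2, h3⟩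
    · have : n = 1 := by omega
      subst this
      obtain ⟨y, hy⟩ := hna
      exact ⟨G, le_rfl, hG, y, by simpa using hy⟩

theorem Good.swap (hG : Good G) :
    Good (G.map (AddEquiv.prodComm : A × B ≃+ B × A).toAddMonoidHom) := by
  have hmem : ∀ x : B × A, x ∈ G.map (AddEquiv.prodComm : A × B ≃+ B × A).toAddMonoidHom ↔
      (x.2, x.1) ∈ G := by
    rintro ⟨x, y⟩
    rw [AddSubgroup.mem_map]
    constructor
    · rintro ⟨⟨u, v⟩, h, h'⟩
      simp only [AddEquiv.toAddMonoidHom_eq_coe, AddMonoidHom.coe_coe, AddEquiv.coe_prodComm,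
        Prod.swap_prod_mk, Prod.mk.injEq] at h'
      obtain ⟨rfl, rfl⟩ := h'
      exact h
    · intro h
      exact ⟨(y, x), h, by simp⟩
  refine ⟨?_, ?_, ?_⟩
  · have : ((G.map (AddEquiv.prodComm : A × B ≃+ B × A).toAddMonoidHom : AddSubgroup (B × A)) :
        Set (B × A)) ⊆ Prod.swap '' (G : Set (A × B)) := by
      intro x hx
      exact ⟨(x.2, x.1), (hmem x).1 hx, by simp⟩
    exact (hG.fin.image _).subset this
  · intro x hx
    exact (hG.zero _ ((hmem x).1 hx)).symm
  · intro p hp α x hx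
    exact (hG.ht p hp α _ ((hmem x).1 hx)).symm

theorem mem_swap {x : A × B} :
    x ∈ G ↔ (x.2, x.1) ∈ G.map (AddEquiv.prodComm : A × B ≃+ B × A).toAddMonoidHom := by
  rw [AddSubgroup.mem_map]
  constructor
  · intro h
    exact ⟨x, h, rfl⟩
  · rintro ⟨⟨u, v⟩, h, h'⟩
    simp only [AddEquiv.toAddMonoidHom_eq_coe, AddMonoidHom.coe_coe, AddEquiv.coe_prodComm,
        Prod.swap_prod_mk, Prod.mk.injEq] at h'
    obtain ⟨h1, h2⟩ := h'
    subst h1 h2
    exact h

theorem Good.ext1 (hI : SameInv A B) (htA : ∀ a : A, ∃ n : ℕ, 0 < n ∧ n • a = 0) (hG : Good G)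
    (a : A) : ∃ G', G ≤ G' ∧ Good G' ∧ ∃ b, (a, b) ∈ G' := by
  obtain ⟨n, hn, hna⟩ := htA a
  exact hG.exists_ext hI a n hn ⟨0, by rw [hna]; exact G.zero_mem⟩

theorem Good.ext2 (hI : SameInv A B) (htB : ∀ b : B, ∃ n : ℕ, 0 < n ∧ n • b = 0) (hG : Good G)
    (b : B) : ∃ G', G ≤ G' ∧ Good G' ∧ ∃ a, (a, b) ∈ G' := by
  obtain ⟨G', h1, h2, a, h3⟩ := hG.swap.ext1 hI.symm htB b
  refine ⟨G'.map (AddEquiv.prodComm : B × A ≃+ A × B).toAddMonoidHom, ?_, h2.swap, a, ?_⟩
  · intro x hx
    have h4 := h1 (mem_swap.1 hx)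
    exact mem_swap.1 h4
  · exact mem_swap.1 h3

/-- Ulm's theorem for countable torsion groups -/
theorem ulm [Countable A] [Countable B] (hI : SameInv A B)
    (htA : ∀ a : A, ∃ n : ℕ, 0 < n ∧ n • a = 0) (htB : ∀ b : B, ∃ n : ℕ, 0 < n ∧ n • b = 0) :
    Nonempty (A ≃+ B) := by
  classical
  obtain ⟨ea, hea⟩ := exists_surjective_nat A
  obtain ⟨eb, heb⟩ := exists_surjective_nat B
  -- one step
  have step : ∀ (n : ℕ) (G : {G : AddSubgroup (A × B) // Good G}),
      ∃ G' : {G : AddSubgroup (A × B) // Good G}, G.1 ≤ G'.1 ∧ (∃ b, (ea n, b) ∈ G'.1) ∧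
        ∃ a, (a, eb n) ∈ G'.1 := by
    rintro n ⟨G, hG⟩
    obtain ⟨G1, h1, hG1, b, hb⟩ := hG.ext1 hI htA (ea n)
    obtain ⟨G2, h2, hG2, a, ha⟩ := hG1.ext2 hI htB (eb n)
    exact ⟨⟨G2, hG2⟩, h1.trans h2, ⟨b, h2 hb⟩, a, ha⟩
  choose nx hnx1 hnx2 hnx3 using step
  have good0 : Good (⊥ : AddSubgroup (A × B)) := by
    refine ⟨by simp, ?_, ?_⟩
    · intro x hx
      rw [AddSubgroup.mem_bot] at hx
      subst hx; simp
    · intro p hp α x hx
      rw [AddSubgroup.mem_bot] at hx
      subst hx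
      exact iff_of_true (AddSubgroup.zero_mem _) (AddSubgroup.zero_mem _)
  let Gs : ℕ → {G : AddSubgroup (A × B) // Good G} := fun n => Nat.rec ⟨⊥, good0⟩ nx n
  have hGs : ∀ n, Gs (n + 1) = nx n (Gs n) := fun n => rfl
  have mono : Monotone (fun n => (Gs n).1) :=
    monotone_nat_of_le_succ fun n => by rw [hGs]; exact hnx1 n (Gs n)
  let R : A → B → Prop := fun a b => ∃ n, (a, b) ∈ (Gs n).1
  have hadd : ∀ {a b a' b'}, R a b → R a' b' → R (a + a') (b + b') := by
    rintro a b a' b' ⟨n, h⟩ ⟨m, h'⟩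
    exact ⟨max n m, AddSubgroup.add_mem _ (mono (le_max_left n m) h) (mono (le_max_right n m) h')⟩
  have huniq : ∀ {a b b'}, R a b → R a b' → b = b' := by
    rintro a b b' ⟨n, h⟩ ⟨m, h'⟩
    exact (Gs (max n m)).2.inj1 (mono (le_max_left n m) h) (mono (le_max_right n m) h')
  have huniq2 : ∀ {a a' b}, R a b → R a' b → a = a' := by
    rintro a b b' ⟨n, h⟩ ⟨m, h'⟩
    exact (Gs (max n m)).2.inj2 (mono (le_max_left n m) h) (mono (le_max_right n m) h')
  have htot : ∀ a, ∃ b, R a b := by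
    intro a
    obtain ⟨n, rfl⟩ := hea a
    obtain ⟨b, hb⟩ := hnx2 n (Gs n)
    exact ⟨b, n + 1, by rw [hGs]; exact hb⟩
  have hsur : ∀ b, ∃ a, R a b := by
    intro b
    obtain ⟨n, rfl⟩ := heb b
    obtain ⟨a, ha⟩ := hnx3 n (Gs n)
    exact ⟨a, n + 1, by rw [hGs]; exact ha⟩
  choose f hf using htot
  let F : A →+ B := AddMonoidHom.mk' f fun a a' => huniq (hf _) (hadd (hf a) (hf a'))
  refine ⟨AddEquiv.ofBijective F ⟨fun a a' h => ?_, fun b => ?_⟩⟩
  · have h1 : f a = f a' := h
    have h2 := hf a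
    rw [h1] at h2
    exact huniq2 h2 (hf a')
  · obtain ⟨a, ha⟩ := hsur b
    exact ⟨a, huniq (hf a) ha⟩

end ext

end Pool.Agent.H787R3
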