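import Mathlib
import Pool.Agent.H787R3.Ulm2

/-!
Kaplansky's two test problems for countable torsion groups.
-/

namespace Pool.Agent.H787R3

open Ordinal

section inv

variable {A B : Type} [AddCommGroup A] [AddCommGroup B] {p : ℕ} {α : Ordinal.{0}}

theorem card_UF_of {Q : Type} [AddCommGroup Q] (g : tor p (pw p A α) →+ Q)
    (hs : Function.Surjective g)
    (hk : ∀ x, g x = 0 ↔ (x : A) ∈ pw p A (Order.succ α)) : ui p A α = Nat.card Q := by
  have hker : g.ker = (tor p (pw p A (Order.succ α))).addSubgroupOf (tor p (pw p A α)) := by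
    ext x
    rw [AddMonoidHom.mem_ker, hk, AddSubgroup.mem_addSubgroupOf, mem_tor]
    exact ⟨fun h => ⟨h, (mem_tor.1 x.2).2⟩, fun h => h.1⟩
  have e1 := QuotientAddGroup.quotientKerEquivOfSurjective g hs
  have e2 := QuotientAddGroup.quotientAddEquivOfEq hker
  exact (Nat.card_congr (e2.symm.trans e1).toEquiv)

theorem mem_pw_prod {x : A × B} :
    x ∈ pw p (A × B) α ↔ x.1 ∈ pw p A α ∧ x.2 ∈ pw p B α := by
  induction α using WellFoundedLT.induction generalizing x with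
  | _ α ih =>
    rw [mem_pw, mem_pw, mem_pw]
    constructor
    · intro h
      refine ⟨fun β hβ => ?_, fun β hβ => ?_⟩
      · obtain ⟨y, hy, rfl⟩ := h β hβ
        exact ⟨y.1, ((ih β hβ).1 hy).1, rfl⟩
      · obtain ⟨y, hy, rfl⟩ := h β hβ
        exact ⟨y.2, ((ih β hβ).1 hy).2, rfl⟩
    · rintro ⟨h1, h2⟩ β hβ
      obtain ⟨y1, hy1, h3⟩ := h1 β hβ
      obtain ⟨y2, hy2, h4⟩ := h2 β hβ
      exact ⟨(y1, y2), (ih β hβ).2 ⟨hy1, hy2⟩, Prod.ext h3 h4⟩

theorem mem_pw_equiv (e : A ≃+ B) {x : A} : e x ∈ pw p B α ↔ x ∈ pw p A α := by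
  induction α using WellFoundedLT.induction generalizing x with
  | _ α ih =>
    rw [mem_pw, mem_pw]
    constructor
    · intro h β hβ
      obtain ⟨y, hy, hyx⟩ := h β hβ
      refine ⟨e.symm y, (ih β hβ).1 (by simpa using hy), ?_⟩
      apply e.injective
      rw [map_nsmul]
      simpa using hyx
    · intro h β hβ
      obtain ⟨y, hy, hyx⟩ := h β hβ
      refine ⟨e y, (ih β hβ).2 hy, ?_⟩
      rw [← map_nsmul, hyx]

theorem ui_prod (p : ℕ) (α : Ordinal.{0}) : ui p (A × B) α = ui p A α * ui p B α := by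
  let f1 : tor p (pw p (A × B) α) →+ tor p (pw p A α) :=
    ((AddMonoidHom.fst A B).comp (tor p (pw p (A × B) α)).subtype).codRestrict _ (fun x => by
      have hx := mem_tor.1 x.2
      exact mem_tor.2 ⟨(mem_pw_prod.1 hx.1).1, congrArg Prod.fst hx.2⟩)
  let f2 : tor p (pw p (A × B) α) →+ tor p (pw p B α) :=
    ((AddMonoidHom.snd A B).comp (tor p (pw p (A × B) α)).subtype).codRestrict _ (fun x => by
      have hx := mem_tor.1 x.2
      exact mem_tor.2 ⟨(mem_pw_prod.1 hx.1).2, congrArg Prod.snd hx.2⟩)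
  let q1 : tor p (pw p A α) →+ UF p A α := QuotientAddGroup.mk' _
  let q2 : tor p (pw p B α) →+ UF p B α := QuotientAddGroup.mk' _
  have h := card_UF_of (A := A × B) (p := p) (α := α) ((q1.comp f1).prod (q2.comp f2)) ?_ ?_
  · rw [h, Nat.card_prod]; rfl
  · rintro ⟨u, v⟩
    obtain ⟨a, rfl⟩ := QuotientAddGroup.mk_surjective u
    obtain ⟨b, rfl⟩ := QuotientAddGroup.mk_surjective v
    have ha := mem_tor.1 a.2
    have hb := mem_tor.1 b.2
    refine ⟨⟨(a.1, b.1), mem_tor.2 ⟨mem_pw_prod.2 ⟨ha.1, hb.1⟩, Prod.ext ha.2 hb.2⟩⟩, ?_⟩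
    rfl
  · intro x
    have h1 : q1 (f1 x) = 0 ↔ (x : A × B).1 ∈ pw p A (Order.succ α) := by
      have : (0 : UF p A α) = QuotientAddGroup.mk 0 := rfl
      rw [this]
      show (QuotientAddGroup.mk (f1 x) : UF p A α) = QuotientAddGroup.mk 0 ↔ _
      rw [UF_eq]
      simp [f1]
    have h2 : q2 (f2 x) = 0 ↔ (x : A × B).2 ∈ pw p B (Order.succ α) := by
      have : (0 : UF p B α) = QuotientAddGroup.mk 0 := rfl
      rw [this]
      show (QuotientAddGroup.mk (f2 x) : UF p B α) = QuotientAddGroup.mk 0 ↔ _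
      rw [UF_eq]
      simp [f2]
    rw [mem_pw_prod, ← h1, ← h2]
    exact Prod.ext_iff

theorem ui_equiv (e : A ≃+ B) (p : ℕ) (α : Ordinal.{0}) : ui p A α = ui p B α := by
  let f1 : tor p (pw p A α) →+ tor p (pw p B α) :=
    (e.toAddMonoidHom.comp (tor p (pw p A α)).subtype).codRestrict _ (fun x => by
      have hx := mem_tor.1 x.2
      refine mem_tor.2 ⟨(mem_pw_equiv e).2 hx.1, ?_⟩
      show p • e (x : A) = 0
      rw [← map_nsmul, hx.2, map_zero])
  let q1 : tor p (pw p B α) →+ UF p B α := QuotientAddGroup.mk' _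
  have h := card_UF_of (A := A) (p := p) (α := α) (q1.comp f1) ?_ ?_
  · rw [h]; rfl
  · intro u
    obtain ⟨b, rfl⟩ := QuotientAddGroup.mk_surjective u
    have hb := mem_tor.1 b.2
    have hs : e.symm b.1 ∈ tor p (pw p A α) :=
      mem_tor.2 ⟨(mem_pw_equiv e.symm).2 hb.1, by rw [← map_nsmul, hb.2, map_zero]⟩
    refine ⟨⟨e.symm b.1, hs⟩, ?_⟩
    show (QuotientAddGroup.mk (f1 ⟨e.symm b.1, hs⟩) : UF p B α) = QuotientAddGroup.mk b
    rw [UF_eq]
    have : ((f1 ⟨e.symm b.1, hs⟩ : tor p (pw p B α)) : B) = b.1 := e.apply_symm_apply b.1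
    rw [this, show (b : B) - (b : B) = 0 from sub_self _]
    exact AddSubgroup.zero_mem _
  · intro x
    show (QuotientAddGroup.mk (f1 x) : UF p B α) = QuotientAddGroup.mk 0 ↔ _
    rw [UF_eq]
    have : ((f1 x : tor p (pw p B α)) : B) = e x.1 := rfl
    rw [this, ← mem_pw_equiv e (x := x.1)]
    simp

theorem uinf_prod (p : ℕ) : uinf p (A × B) = uinf p A * uinf p B := by
  unfold uinf
  rw [← Nat.card_prod]
  refine Nat.card_congr ?_
  have hm : ∀ x : A × B, x ∈ tor p (pinf p (A × B)) ↔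
      x.1 ∈ tor p (pinf p A) ∧ x.2 ∈ tor p (pinf p B) := by
    intro x
    rw [mem_tor, mem_tor, mem_tor, mem_pinf, mem_pinf, mem_pinf]
    have h0 : p • x = 0 ↔ p • x.1 = 0 ∧ p • x.2 = 0 := Prod.ext_iff
    rw [h0]
    constructor
    · rintro ⟨h, h1, h2⟩
      exact ⟨⟨fun α => (mem_pw_prod.1 (h α)).1, h1⟩, fun α => (mem_pw_prod.1 (h α)).2, h2⟩
    · rintro ⟨⟨h1, h2⟩, h3, h4⟩
      exact ⟨fun α => mem_pw_prod.2 ⟨h1 α, h3 α⟩, h2, h4⟩
  exact {
    toFun := fun x => (⟨x.1.1, ((hm x.1).1 x.2).1⟩, ⟨x.1.2, ((hm x.1).1 x.2).2⟩)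
    invFun := fun y => ⟨(y.1.1, y.2.1), (hm _).2 ⟨y.1.2, y.2.2⟩⟩
    left_inv := fun x => rfl
    right_inv := fun y => rfl }

theorem uinf_equiv (e : A ≃+ B) (p : ℕ) : uinf p A = uinf p B := by
  unfold uinf
  refine Nat.card_congr ?_
  have hm : ∀ x : A, x ∈ tor p (pinf p A) ↔ e x ∈ tor p (pinf p B) := by
    intro x
    rw [mem_tor, mem_tor, mem_pinf, mem_pinf]
    have h0 : p • x = 0 ↔ p • e x = 0 := by
      rw [← map_nsmul]; exact (EmbeddingLike.map_eq_zero_iff (f := e)).symm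
    rw [h0]
    simp only [mem_pw_equiv]
  exact {
    toFun := fun x => ⟨e x.1, (hm x.1).1 x.2⟩
    invFun := fun y => ⟨e.symm y.1, (hm _).2 (by rw [e.apply_symm_apply]; exact y.2)⟩
    left_inv := fun x => Subtype.ext (e.symm_apply_apply x.1)
    right_inv := fun y => Subtype.ext (e.apply_symm_apply y.1) }

/-- first test problem -/
theorem test1 [Countable A] [Countable B] (e : (A × A) ≃+ (B × B))
    (htA : ∀ a : A, ∃ n : ℕ, 0 < n ∧ n • a = 0) (htB : ∀ b : B, ∃ n : ℕ, 0 < n ∧ n • b = 0) :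
    Nonempty (A ≃+ B) := by
  have sq : ∀ m n : ℕ, m * m = n * n → m = n := fun m n h => Nat.mul_self_inj.1 h
  refine ulm ⟨fun p _ α => sq _ _ ?_, fun p _ => sq _ _ ?_⟩ htA htB
  · rw [← ui_prod, ← ui_prod]; exact ui_equiv e p α
  · rw [← uinf_prod, ← uinf_prod]; exact uinf_equiv e p

/-- second test problem -/
theorem test2 {K L : Type} [AddCommGroup K] [AddCommGroup L] [Countable A] [Countable B]
    (e : B ≃+ (A × K)) (e' : A ≃+ (B × L))
    (htA : ∀ a : A, ∃ n : ℕ, 0 < n ∧ n • a = 0) (htB : ∀ b : B, ∃ n : ℕ, 0 < n ∧ n • b = 0) :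
    Nonempty (A ≃+ B) := by
  refine ulm ⟨fun p _ α => Nat.dvd_antisymm ?_ ?_, fun p _ => Nat.dvd_antisymm ?_ ?_⟩ htA htB
  · rw [ui_equiv e p α, ui_prod]; exact Dvd.intro _ rfl
  · rw [ui_equiv e' p α, ui_prod]; exact Dvd.intro _ rfl
  · rw [uinf_equiv e p, uinf_prod]; exact Dvd.intro _ rfl
  · rw [uinf_equiv e' p, uinf_prod]; exact Dvd.intro _ rfl

end inv

end Pool.Agent.H787R3
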