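import Mathlib
import Pool.Agent.H787R3.Beta1
import Pool.Agent.H787R3.Ulm3

/-!
The two test statements hold in all β-models.
-/

namespace Pool.Agent.H787R3

open Pool.Agent.Helper617.RM Pool.Agent.Helper317.Atr

variable {S : Set (Set ℕ)}

/-- the coded group `G` is a copy of the group `A` -/
structure Pres (G : CGroup (om S)) (A : Type) [AddCommGroup A] (ι : A → ℕ) : Prop where
  inj : Function.Injective ι
  mem : ∀ n, n ∈ G.dom ↔ ∃ a, ι a = n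
  add : ∀ a b c, G.add (ι a) (ι b) (ι c) ↔ a + b = c
  dom : ∀ x y z, G.add x y z → x ∈ G.dom ∧ y ∈ G.dom ∧ z ∈ G.dom

section pres

variable {G H : CGroup (om S)} {A B : Type} [AddCommGroup A] [AddCommGroup B]
  {ι : A → ℕ} {κ : B → ℕ}

theorem Pres.dsum (hG : Pres G A ι) (hH : Pres H B κ) :
    Pres (G.dsum H) (A × B) (fun p => pr (ι p.1) (κ p.2)) where
  inj := by
    rintro ⟨a, b⟩ ⟨a', b'⟩ h
    obtain ⟨h1, h2⟩ := pr_inj h
    exact Prod.ext (hG.inj h1) (hH.inj h2)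
  mem n := by
    constructor
    · rintro ⟨x, hx, y, hy, rfl⟩
      obtain ⟨a, rfl⟩ := (hG.mem x).1 hx
      obtain ⟨b, rfl⟩ := (hH.mem y).1 hy
      exact ⟨(a, b), rfl⟩
    · rintro ⟨⟨a, b⟩, rfl⟩
      exact ⟨_, (hG.mem _).2 ⟨a, rfl⟩, _, (hH.mem _).2 ⟨b, rfl⟩, rfl⟩
  add := by
    rintro ⟨a, b⟩ ⟨a', b'⟩ ⟨c, d⟩
    constructor
    · rintro ⟨x, y, x', y', z, z', h1, h2, h3, h4, h5⟩
      obtain ⟨h6, h7⟩ := pr_inj h1
      obtain ⟨h8, h9⟩ := pr_inj h2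
      obtain ⟨h10, h11⟩ := pr_inj h3
      subst h6 h7 h8 h9 h10 h11
      exact Prod.ext ((hG.add _ _ _).1 h4) ((hH.add _ _ _).1 h5)
    · intro h
      exact ⟨_, _, _, _, _, _, rfl, rfl, rfl, (hG.add _ _ _).2 (congrArg Prod.fst h),
        (hH.add _ _ _).2 (congrArg Prod.snd h)⟩
  dom := by
    rintro p q r ⟨x, y, x', y', z, z', rfl, rfl, rfl, h4, h5⟩
    obtain ⟨h1, h2, h3⟩ := hG.dom _ _ _ h4
    obtain ⟨h6, h7, h8⟩ := hH.dom _ _ _ h5
    exact ⟨⟨_, h1, _, h6, rfl⟩, ⟨_, h2, _, h7, rfl⟩, ⟨_, h3, _, h8, rfl⟩⟩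

theorem Pres.equiv (hG : Pres G A ι) (hH : Pres H B κ) {φ : ℕ → ℕ → Prop}
    (h : IsIso G H φ) : Nonempty (A ≃+ B) := by
  have h1 : ∀ a, ∃ b, φ (ι a) (κ b) := by
    intro a
    obtain ⟨y, hy⟩ := h.tot (ι a) ((hG.mem _).2 ⟨a, rfl⟩)
    obtain ⟨b, hb⟩ := (hH.mem _).1 (h.dom _ _ hy).2
    exact ⟨b, by rw [hb]; exact hy⟩
  choose f hf using h1
  let F : A →+ B := AddMonoidHom.mk' f fun a a' =>
    ((hH.add _ _ _).1 (h.add _ _ _ _ _ _ (hf a) (hf a') (hf (a + a')) ((hG.add _ _ _).2 rfl))).symm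
  refine ⟨AddEquiv.ofBijective F ⟨fun a a' haa => ?_, fun b => ?_⟩⟩
  · have h1 : f a = f a' := haa
    have h2 := hf a
    rw [h1] at h2
    exact hG.inj (h.inj _ _ _ h2 (hf a'))
  · obtain ⟨x, hx⟩ := h.sur (κ b) ((hH.mem _).2 ⟨b, rfl⟩)
    obtain ⟨a, ha⟩ := (hG.mem _).1 (h.dom _ _ hx).1
    rw [← ha] at hx
    exact ⟨a, hH.inj (h.uniq _ _ _ (hf a) hx)⟩

theorem Pres.iso (hS : Beta S) (hG : Pres G A ι) (hH : Pres H B κ) (hGd : G.dom ∈ S)
    (hHd : H.dom ∈ S)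
    (hGa : {q | ∃ x y z, G.add x y z ∧ q = (om S).pair ((om S).pair x y) z} ∈ S)
    (hHa : {q | ∃ x y z, H.add x y z ∧ q = (om S).pair ((om S).pair x y) z} ∈ S)
    (e : A ≃+ B) : G.Iso H := by
  set GA := {q | ∃ x y z, G.add x y z ∧ q = (om S).pair ((om S).pair x y) z} with hGA
  set HA := {q | ∃ x y z, H.add x y z ∧ q = (om S).pair ((om S).pair x y) z} with hHA
  have memGA : ∀ x y z : ℕ, pr (pr x y) z ∈ GA ↔ G.add x y z := by
    intro x y z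
    constructor
    · rintro ⟨x', y', z', h, h'⟩
      obtain ⟨rfl, rfl, rfl⟩ := pr_inj3 h'
      exact h
    · intro h
      exact ⟨x, y, z, h, rfl⟩
  have memHA : ∀ x y z : ℕ, pr (pr x y) z ∈ HA ↔ H.add x y z := by
    intro x y z
    constructor
    · rintro ⟨x', y', z', h, h'⟩
      obtain ⟨rfl, rfl, rfl⟩ := pr_inj3 h'
      exact h
    · intro h
      exact ⟨x, y, z, h, rfl⟩
  let R : (ℕ → ℕ) → Set ℕ → Prop := fun _ Y =>
    (∀ p, p ∈ Y → ∃ x y, p = pr x y ∧ x ∈ G.dom ∧ y ∈ H.dom) ∧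
    (∀ x, x ∈ G.dom → ∃ y, pr x y ∈ Y) ∧
    (∀ y, y ∈ H.dom → ∃ x, pr x y ∈ Y) ∧
    (∀ x y z, pr x y ∈ Y → pr x z ∈ Y → y = z) ∧
    (∀ x y z, pr x z ∈ Y → pr y z ∈ Y → x = y) ∧
    (∀ x x' z y y' w, pr x y ∈ Y → pr x' y' ∈ Y → pr z w ∈ Y → pr (pr x x') z ∈ GA →
      pr (pr y y') w ∈ HA)
  have hR : A1 S R := by
    refine A1.and (A1.all (A1.imp (A1.memY (T1.var 0)) (A1.ex (A1.ex (A1.and
      (A1.eq (T1.var 2) ((T1.var 1).pr (T1.var 0))) (A1.and (A1.mem hGd (T1.var 1))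
      (A1.mem hHd (T1.var 0)))))))) ?_
    refine A1.and (A1.all (A1.imp (A1.mem hGd (T1.var 0)) (A1.ex (A1.memY
      ((T1.var 1).pr (T1.var 0)))))) ?_
    refine A1.and (A1.all (A1.imp (A1.mem hHd (T1.var 0)) (A1.ex (A1.memY
      ((T1.var 0).pr (T1.var 1)))))) ?_
    refine A1.and (A1.all (A1.all (A1.all (A1.imp (A1.memY ((T1.var 2).pr (T1.var 1)))
      (A1.imp (A1.memY ((T1.var 2).pr (T1.var 0))) (A1.eq (T1.var 1) (T1.var 0))))))) ?_
    refine A1.and (A1.all (A1.all (A1.all (A1.imp (A1.memY ((T1.var 2).pr (T1.var 0)))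
      (A1.imp (A1.memY ((T1.var 1).pr (T1.var 0))) (A1.eq (T1.var 2) (T1.var 1))))))) ?_
    refine A1.all (A1.all (A1.all (A1.all (A1.all (A1.all (A1.imp
      (A1.memY ((T1.var 5).pr (T1.var 2))) (A1.imp (A1.memY ((T1.var 4).pr (T1.var 1)))
      (A1.imp (A1.memY ((T1.var 3).pr (T1.var 0))) (A1.imp
      (A1.mem hGa (((T1.var 5).pr (T1.var 4)).pr (T1.var 3)))
      (A1.mem hHa (((T1.var 2).pr (T1.var 1)).pr (T1.var 0)))))))))))) 
  obtain ⟨Y, hY, h1, h2, h3, h4, h5, h6⟩ := hS.ex hR (fun _ => 0) (by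
    have key : ∀ a b, pr (ι a) (κ b) ∈ {q | ∃ a, q = pr (ι a) (κ (e a))} ↔ b = e a := by
      intro a b
      constructor
      · rintro ⟨a', h⟩
        obtain ⟨h1, h2⟩ := pr_inj h
        rw [hG.inj h1]
        exact hH.inj h2
      · rintro rfl
        exact ⟨a, rfl⟩
    have key2 : ∀ x y, pr x y ∈ {q | ∃ a, q = pr (ι a) (κ (e a))} →
        ∃ a, x = ι a ∧ y = κ (e a) := by
      rintro x y ⟨a, h⟩
      obtain ⟨h1, h2⟩ := pr_inj h
      exact ⟨a, h1, h2⟩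
    refine ⟨{q | ∃ a, q = pr (ι a) (κ (e a))}, ?_, ?_, ?_, ?_, ?_, ?_⟩
    · rintro p ⟨a, rfl⟩
      exact ⟨_, _, rfl, (hG.mem _).2 ⟨a, rfl⟩, (hH.mem _).2 ⟨_, rfl⟩⟩
    · intro x hx
      obtain ⟨a, rfl⟩ := (hG.mem _).1 hx
      exact ⟨_, (key a _).2 rfl⟩
    · intro y hy
      obtain ⟨b, rfl⟩ := (hH.mem _).1 hy
      exact ⟨ι (e.symm b), (key _ _).2 (by simp)⟩
    · intro x y z hxy hxz
      obtain ⟨a, rfl, rfl⟩ := key2 _ _ hxy
      obtain ⟨a', h, rfl⟩ := key2 _ _ hxz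
      rw [hG.inj h]
    · intro x y z hxz hyz
      obtain ⟨a, rfl, rfl⟩ := key2 _ _ hxz
      obtain ⟨a', rfl, h⟩ := key2 _ _ hyz
      rw [e.injective (hH.inj h)]
    · intro x x' z y y' w hxy hxy' hzw hadd
      obtain ⟨a, rfl, rfl⟩ := key2 _ _ hxy
      obtain ⟨a', rfl, rfl⟩ := key2 _ _ hxy'
      obtain ⟨c, rfl, rfl⟩ := key2 _ _ hzw
      rw [memGA, hG.add] at hadd
      rw [memHA, hH.add, ← hadd, map_add])
  refine ⟨fun x y => pr x y ∈ Y, ?_, ?_, h2, h3, h4, h5, ?_⟩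
  · have : {p | ∃ x y, pr x y ∈ Y ∧ p = (om S).pair x y} = Y := by
      ext p
      constructor
      · rintro ⟨x, y, h, rfl⟩
        exact h
      · intro hp
        obtain ⟨x, y, rfl, -, -⟩ := h1 p hp
        exact ⟨x, y, hp, rfl⟩
    exact (Iff.of_eq (congrArg (· ∈ S) this)).2 hY
  · intro x y hxy
    obtain ⟨x', y', h, hx, hy⟩ := h1 _ hxy
    obtain ⟨rfl, rfl⟩ := pr_inj h
    exact ⟨hx, hy⟩
  · intro x x' z y y' w hxy hxy' hzw hadd
    exact (memHA _ _ _).1 (h6 x x' z y y' w hxy hxy' hzw ((memGA _ _ _).2 hadd))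

end pres

/-- the group given by a coded group -/
def GT {G : CGroup (om S)} (_hG : G.IsAb) : Type := G.dom

section GT

variable {G : CGroup (om S)} (hG : G.IsAb)

noncomputable def gadd (x y : GT hG) : GT hG :=
  ⟨(hG.add_ex x.1 x.2 y.1 y.2).choose,
    (hG.add_dom _ _ _ (hG.add_ex x.1 x.2 y.1 y.2).choose_spec).2.2⟩

theorem gadd_iff (x y z : GT hG) : G.add x.1 y.1 z.1 ↔ gadd hG x y = z := by
  have h := (hG.add_ex x.1 x.2 y.1 y.2).choose_spec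
  constructor
  · intro h'
    exact Subtype.ext (hG.add_uniq _ _ _ _ h h')
  · rintro rfl
    exact h

noncomputable def gneg (x : GT hG) : GT hG :=
  ⟨(hG.neg_ex x.1 x.2).choose, (hG.neg_dom _ _ (hG.neg_ex x.1 x.2).choose_spec).2⟩

noncomputable instance : AddCommGroup (GT hG) :=
  letI : Add (GT hG) := ⟨gadd hG⟩
  letI : Neg (GT hG) := ⟨gneg hG⟩
  letI : Zero (GT hG) := ⟨⟨G.zero, hG.zero_dom⟩⟩
  { AddGroup.ofLeftAxioms
      (by
        intro x y z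
        show gadd hG (gadd hG x y) z = gadd hG x (gadd hG y z)
        rw [eq_comm, ← gadd_iff]
        exact hG.assoc _ _ _ _ _ _ ((gadd_iff hG x y _).2 rfl) ((gadd_iff hG _ z _).2 rfl)
          ((gadd_iff hG y z _).2 rfl))
      (by
        intro x
        exact (gadd_iff hG ⟨G.zero, hG.zero_dom⟩ x x).1 (hG.zero_add _ x.2))
      (by
        intro x
        exact (gadd_iff hG (gneg hG x) x ⟨G.zero, hG.zero_dom⟩).1
          (hG.neg_add _ _ (hG.neg_ex x.1 x.2).choose_spec)) with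
    add_comm := by
      intro x y
      show gadd hG x y = gadd hG y x
      rw [← gadd_iff]
      exact hG.comm _ _ _ ((gadd_iff hG y x _).2 rfl) }

theorem GT.pres : Pres G (GT hG) (fun x => x.1) where
  inj := Subtype.val_injective
  mem n := ⟨fun h => ⟨⟨n, h⟩, rfl⟩, fun ⟨a, h⟩ => h ▸ a.2⟩
  add a b c := gadd_iff hG a b c
  dom := hG.add_dom

instance : Countable (GT hG) := by
  unfold GT
  exact inferInstanceAs (Countable {x : ℕ // x ∈ G.dom})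

theorem GT.tors (ht : G.IsTors) (x : GT hG) : ∃ n : ℕ, 0 < n ∧ n • x = 0 := by
  obtain ⟨f, -, h0, hs, n, hn, hfn⟩ := ht x.1 x.2
  have key : ∀ i : ℕ, f i = (i • x : GT hG).1 := by
    intro i
    induction i with
    | zero =>
      rw [zero_smul]
      exact h0
    | succ i ih =>
      have h1 := hs i
      rw [ih] at h1
      have h2 := (gadd_iff hG (i • x) x ⟨f (i + 1), (hG.add_dom _ _ _ h1).2.2⟩).1 h1
      have h3 : (i + 1) • x = gadd hG (i • x) x := succ_nsmul x i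
      rw [h3, h2]
  refine ⟨n, Nat.pos_of_ne_zero hn, Subtype.ext ?_⟩
  rw [← key n, hfn]
  rfl

end GT

theorem Beta.testA (hS : Beta S) : TestA (om S) := by
  intro G H hG hH htG htH ⟨φ, hφ⟩
  have h1 := (GT.pres hG).dsum (GT.pres hG)
  have h2 := (GT.pres hH).dsum (GT.pres hH)
  obtain ⟨e⟩ := h1.equiv h2 hφ
  obtain ⟨e'⟩ := test1 e (GT.tors hG htG) (GT.tors hH htH)
  exact (GT.pres hG).iso hS (GT.pres hH) hG.dom_in hH.dom_in hG.add_in hH.add_in e'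

theorem Beta.testB (hS : Beta S) : TestB (om S) := by
  intro G H hG hH htG htH ⟨K, hK, φ, hφ⟩ ⟨L, hL, ψ, hψ⟩
  obtain ⟨e⟩ := (GT.pres hH).equiv ((GT.pres hG).dsum (GT.pres hK)) hφ
  obtain ⟨e'⟩ := (GT.pres hG).equiv ((GT.pres hH).dsum (GT.pres hL)) hψ
  obtain ⟨e''⟩ := test2 e e' (GT.tors hG htG) (GT.tors hH htH)
  exact (GT.pres hG).iso hS (GT.pres hH) hG.dom_in hH.dom_in hG.add_in hH.add_in e''

end Pool.Agent.H787R3
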