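import Mathlib
import Pool.Agent.H787R3.Beta1

/-!
Arithmetical formulas about a family `W 0, W 1, …` of sets, and a Henkin construction: there is
a family with `W 0 = P` such that each formula `θ(Y)` with parameters from the family is either
satisfied by some member `Y` of the family or refuted by finitely many true formulas.
-/

namespace Pool.Agent.H787R3

open Pool.Agent.Helper617.RM Pool.Agent.Helper317.Atr

inductive Tm : Type
  | var (i : ℕ)
  | const (a : ℕ)
  | add (s t : Tm)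
  | mul (s t : Tm)
deriving Countable

inductive Fm : Type
  | eq (s t : Tm)
  | lt (s t : Tm)
  | mem (t : Tm) (n : ℕ)
  | neg (φ : Fm)
  | and (φ ψ : Fm)
  | all (φ : Fm)
deriving Countable

def Tm.ev : Tm → (ℕ → ℕ) → ℕ
  | .var i, v => v i
  | .const a, _ => a
  | .add s t, v => s.ev v + t.ev v
  | .mul s t, v => s.ev v * t.ev v

/-- truth in the family `W` -/
def Fm.Sat (W : ℕ → Set ℕ) : Fm → (ℕ → ℕ) → Prop
  | .eq s t, v => s.ev v = t.ev v
  | .lt s t, v => s.ev v < t.ev v
  | .mem t n, v => t.ev v ∈ W n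
  | .neg φ, v => ¬ φ.Sat W v
  | .and φ ψ, v => φ.Sat W v ∧ ψ.Sat W v
  | .all φ, v => ∀ a, φ.Sat W (cons a v)

instance : Nonempty Fm := ⟨.eq (.const 0) (.const 0)⟩

/-- the assignment given by a list -/
def env (l : List ℕ) : ℕ → ℕ := fun i => l.getD i 0

theorem env_cons (a : ℕ) (l : List ℕ) : env (a :: l) = cons a (env l) := by
  funext i; cases i <;> simp [env, cons]

/-- formulas together with an assignment -/
abbrev Node : Type := Fm × List ℕ

def Node.True (W : ℕ → Set ℕ) (c : Node) : Prop := c.1.Sat W (env c.2)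

/-- replace column `0` by column `m` and column `n + 1` by column `n` -/
def Fm.sub (m : ℕ) : Fm → Fm
  | .eq s t => .eq s t
  | .lt s t => .lt s t
  | .mem t 0 => .mem t m
  | .mem t (n + 1) => .mem t n
  | .neg φ => .neg (φ.sub m)
  | .and φ ψ => .and (φ.sub m) (ψ.sub m)
  | .all φ => .all (φ.sub m)

/-- replace column `n` by column `n + 1` -/
def Fm.up : Fm → Fm
  | .eq s t => .eq s t
  | .lt s t => .lt s t
  | .mem t n => .mem t (n + 1)
  | .neg φ => .neg φ.up
  | .and φ ψ => .and φ.up ψ.up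
  | .all φ => .all φ.up

/-- the family `Y, W 0, W 1, …` -/
def cs (Y : Set ℕ) (W : ℕ → Set ℕ) : ℕ → Set ℕ
  | 0 => Y
  | n + 1 => W n

theorem sat_sub (W : ℕ → Set ℕ) (m : ℕ) (φ : Fm) :
    ∀ v, (φ.sub m).Sat W v ↔ φ.Sat (cs (W m) W) v := by
  induction φ with
  | eq s t => intro v; rfl
  | lt s t => intro v; rfl
  | mem t n => intro v; cases n <;> rfl
  | neg φ ih => intro v; exact not_congr (ih v)
  | and φ ψ ih1 ih2 => intro v; exact and_congr (ih1 v) (ih2 v)
  | all φ ih => intro v; exact forall_congr' fun a => ih _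

theorem sat_up (W : ℕ → Set ℕ) (Y : Set ℕ) (φ : Fm) :
    ∀ v, φ.up.Sat (cs Y W) v ↔ φ.Sat W v := by
  induction φ with
  | eq s t => intro v; rfl
  | lt s t => intro v; rfl
  | mem t n => intro v; rfl
  | neg φ ih => intro v; exact not_congr (ih v)
  | and φ ψ ih1 ih2 => intro v; exact and_congr (ih1 v) (ih2 v)
  | all φ ih => intro v; exact forall_congr' fun a => ih _

/-- only finitely many columns occur -/
theorem Fm.colDep (φ : Fm) : ∃ K : ℕ, ∀ W W' : ℕ → Set ℕ, (∀ n < K, W n = W' n) →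
    ∀ v, φ.Sat W v ↔ φ.Sat W' v := by
  induction φ with
  | eq s t => exact ⟨0, fun _ _ _ _ => Iff.rfl⟩
  | lt s t => exact ⟨0, fun _ _ _ _ => Iff.rfl⟩
  | mem t n =>
    refine ⟨n + 1, fun W W' h v => ?_⟩
    show _ ∈ W n ↔ _ ∈ W' n
    rw [h n (Nat.lt_succ_self n)]
  | neg φ ih =>
    obtain ⟨K, hK⟩ := ih
    exact ⟨K, fun W W' h v => not_congr (hK W W' h v)⟩
  | and φ ψ ih1 ih2 =>
    obtain ⟨K, hK⟩ := ih1
    obtain ⟨L, hL⟩ := ih2
    exact ⟨max K L, fun W W' h v => and_congr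
      (hK W W' (fun n hn => h n (lt_of_lt_of_le hn (le_max_left _ _))) v)
      (hL W W' (fun n hn => h n (lt_of_lt_of_le hn (le_max_right _ _))) v)⟩
  | all φ ih =>
    obtain ⟨K, hK⟩ := ih
    exact ⟨K, fun W W' h v => forall_congr' fun a => hK W W' h _⟩

theorem Tm.varDep (t : Tm) : ∃ K : ℕ, ∀ v v' : ℕ → ℕ, (∀ i < K, v i = v' i) →
    t.ev v = t.ev v' := by
  induction t with
  | var i => exact ⟨i + 1, fun v v' h => h i (Nat.lt_succ_self i)⟩
  | const a => exact ⟨0, fun _ _ _ => rfl⟩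
  | add s t ih1 ih2 =>
    obtain ⟨K, hK⟩ := ih1
    obtain ⟨L, hL⟩ := ih2
    exact ⟨max K L, fun v v' h => congrArg₂ (· + ·)
      (hK v v' (fun n hn => h n (lt_of_lt_of_le hn (le_max_left _ _))))
      (hL v v' (fun n hn => h n (lt_of_lt_of_le hn (le_max_right _ _))))⟩
  | mul s t ih1 ih2 =>
    obtain ⟨K, hK⟩ := ih1
    obtain ⟨L, hL⟩ := ih2
    exact ⟨max K L, fun v v' h => congrArg₂ (· * ·)
      (hK v v' (fun n hn => h n (lt_of_lt_of_le hn (le_max_left _ _))))
      (hL v v' (fun n hn => h n (lt_of_lt_of_le hn (le_max_right _ _))))⟩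

/-- only finitely many number variables occur -/
theorem Fm.varDep (φ : Fm) : ∃ K : ℕ, ∀ (W : ℕ → Set ℕ) (v v' : ℕ → ℕ), (∀ i < K, v i = v' i) →
    (φ.Sat W v ↔ φ.Sat W v') := by
  induction φ with
  | eq s t =>
    obtain ⟨K, hK⟩ := s.varDep
    obtain ⟨L, hL⟩ := t.varDep
    exact ⟨max K L, fun W v v' h => Iff.of_eq (congrArg₂ (· = ·)
      (hK v v' (fun n hn => h n (lt_of_lt_of_le hn (le_max_left _ _))))
      (hL v v' (fun n hn => h n (lt_of_lt_of_le hn (le_max_right _ _)))))⟩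
  | lt s t =>
    obtain ⟨K, hK⟩ := s.varDep
    obtain ⟨L, hL⟩ := t.varDep
    exact ⟨max K L, fun W v v' h => Iff.of_eq (congrArg₂ (· < ·)
      (hK v v' (fun n hn => h n (lt_of_lt_of_le hn (le_max_left _ _))))
      (hL v v' (fun n hn => h n (lt_of_lt_of_le hn (le_max_right _ _)))))⟩
  | mem t n =>
    obtain ⟨K, hK⟩ := t.varDep
    exact ⟨K, fun W v v' h => Iff.of_eq (congrArg (· ∈ W n) (hK v v' h))⟩
  | neg φ ih =>
    obtain ⟨K, hK⟩ := ih
    exact ⟨K, fun W v v' h => not_congr (hK W v v' h)⟩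
  | and φ ψ ih1 ih2 =>
    obtain ⟨K, hK⟩ := ih1
    obtain ⟨L, hL⟩ := ih2
    exact ⟨max K L, fun W v v' h => and_congr
      (hK W v v' (fun n hn => h n (lt_of_lt_of_le hn (le_max_left _ _))))
      (hL W v v' (fun n hn => h n (lt_of_lt_of_le hn (le_max_right _ _))))⟩
  | all φ ih =>
    obtain ⟨K, hK⟩ := ih
    refine ⟨K, fun W v v' h => forall_congr' fun a => hK W _ _ fun i hi => ?_⟩
    cases i with
    | zero => rfl
    | succ i => exact h i (Nat.lt_of_succ_lt hi)

section henkin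

variable (P : Set ℕ)

/-- `X` satisfies the nodes of the list and has `P` as column `0` -/
def Mod (X : ℕ → Set ℕ) (L : List Node) : Prop := X 0 = P ∧ ∀ c ∈ L, c.True X

/-- the list `L` refutes the existence of `Y` with `c(Y)` -/
def Refutes (L : List Node) (c : Node) : Prop :=
  ∀ X Y, Mod P X L → ¬ c.True (cs Y X)

/-- what has to be done for the node `c` -/
structure Done (c : Node) (L : List Node) : Prop where
  dec : c ∈ L ∨ (Fm.neg c.1, c.2) ∈ L
  wit : ∀ φ, c.1 = .all φ → c ∈ L ∨ ∃ a, (Fm.neg φ, a :: c.2) ∈ L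
  ex : (∃ m, (c.1.sub m, c.2) ∈ L) ∨ ∃ L' : List Node, (∀ d ∈ L', d ∈ L) ∧ Refutes P L' c

theorem Done.mono {c : Node} {L L' : List Node} (h : Done P c L) (hL : ∀ d ∈ L, d ∈ L') :
    Done P c L' where
  dec := h.dec.imp (hL _) (hL _)
  wit φ hφ := (h.wit φ hφ).imp (hL _) fun ⟨a, ha⟩ => ⟨a, hL _ ha⟩
  ex := h.ex.imp (fun ⟨m, hm⟩ => ⟨m, hL _ hm⟩) fun ⟨L0, h0, h1⟩ =>
    ⟨L0, fun d hd => hL _ (h0 d hd), h1⟩

theorem exists_step (L : List Node) (hL : ∃ X, Mod P X L) (c : Node) :
    ∃ L', (∀ d ∈ L, d ∈ L') ∧ (∃ X, Mod P X L') ∧ Done P c L' := by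
  classical
  obtain ⟨X, hX0, hX⟩ := hL
  -- first two tasks
  have h1 : ∃ L1, (∀ d ∈ L, d ∈ L1) ∧ Mod P X L1 ∧ (c ∈ L1 ∨ (Fm.neg c.1, c.2) ∈ L1) ∧
      (∀ φ, c.1 = .all φ → c ∈ L1 ∨ ∃ a, (Fm.neg φ, a :: c.2) ∈ L1) := by
    by_cases hc : c.True X
    · refine ⟨c :: L, fun d hd => List.mem_cons_of_mem _ hd, ⟨hX0, ?_⟩, Or.inl (by simp),
        fun φ _ => Or.inl (by simp)⟩
      intro d hd
      rcases List.mem_cons.1 hd with rfl | hd
      · exact hc
      · exact hX d hd
    · by_cases hall : ∃ φ, c.1 = .all φ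
      · obtain ⟨φ, hφ⟩ := hall
        have h2 : ∃ a, ¬ φ.Sat X (env (a :: c.2)) := by
          by_contra hcon
          push Not at hcon
          apply hc
          show c.1.Sat X (env c.2)
          rw [hφ]
          intro a
          have := hcon a
          rwa [env_cons] at this
        obtain ⟨a, ha⟩ := h2
        refine ⟨(Fm.neg c.1, c.2) :: (Fm.neg φ, a :: c.2) :: L, fun d hd => by simp [hd],
          ⟨hX0, ?_⟩, Or.inr (by simp), fun ψ hψ => Or.inr ⟨a, ?_⟩⟩
        · intro d hd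
          rcases List.mem_cons.1 hd with rfl | hd
          · exact hc
          · rcases List.mem_cons.1 hd with rfl | hd
            · exact ha
            · exact hX d hd
        · rw [hφ] at hψ
          obtain rfl := Fm.all.inj hψ
          simp
      · refine ⟨(Fm.neg c.1, c.2) :: L, fun d hd => by simp [hd], ⟨hX0, ?_⟩, Or.inr (by simp),
          fun ψ hψ => absurd ⟨ψ, hψ⟩ hall⟩
        intro d hd
        rcases List.mem_cons.1 hd with rfl | hd
        · exact hc
        · exact hX d hd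
  obtain ⟨L1, hL1, hX1, hd1, hd2⟩ := h1
  by_cases hr : Refutes P L1 c
  · exact ⟨L1, hL1, ⟨X, hX1⟩, hd1, hd2, Or.inr ⟨L1, fun _ h => h, hr⟩⟩
  · unfold Refutes at hr
    push Not at hr
    obtain ⟨X', Y, hX', hY⟩ := hr
    -- a fresh column
    have hK : ∃ K : ℕ, ∀ d ∈ L1, ∀ W W' : ℕ → Set ℕ, (∀ n < K, W n = W' n) →
        ∀ v, d.1.Sat W v ↔ d.1.Sat W' v := by
      clear hX1 hd1 hd2 hX' hL1
      induction L1 with
      | nil => exact ⟨0, by simp⟩
      | cons d L1 ih =>
        obtain ⟨K, hK⟩ := ih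
        obtain ⟨K', hK'⟩ := d.1.colDep
        refine ⟨max K K', fun e he W W' h v => ?_⟩
        rcases List.mem_cons.1 he with rfl | he
        · exact hK' W W' (fun n hn => h n (lt_of_lt_of_le hn (le_max_right _ _))) v
        · exact hK e he W W' (fun n hn => h n (lt_of_lt_of_le hn (le_max_left _ _))) v
    obtain ⟨K, hK⟩ := hK
    obtain ⟨K', hK'⟩ := c.1.colDep
    set m := max K K' + 1 with hm
    let X'' : ℕ → Set ℕ := Function.update X' m Y
    have hX''m : X'' m = Y := by simp [X'']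
    have hX''n : ∀ n, n ≠ m → X'' n = X' n := fun n hn => by simp [X'', hn]
    have hX''L : Mod P X'' L1 := by
      refine ⟨?_, fun d hd => ?_⟩
      · rw [hX''n 0 (by omega)]; exact hX'.1
      · have := hK d hd X'' X' (fun n hn => hX''n n (by omega)) (env d.2)
        exact this.2 (hX'.2 d hd)
    have hsub : (c.1.sub m).Sat X'' (env c.2) := by
      rw [sat_sub, hX''m]
      have := hK' (cs Y X'') (cs Y X') (fun n hn => by
        cases n with
        | zero => rfl
        | succ n => exact hX''n n (by omega)) (env c.2)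
      exact this.2 hY
    refine ⟨(c.1.sub m, c.2) :: L1, fun d hd => List.mem_cons_of_mem _ (hL1 d hd),
      ⟨X'', hX''L.1, ?_⟩, ?_⟩
    · intro d hd
      rcases List.mem_cons.1 hd with rfl | hd
      · exact hsub
      · exact hX''L.2 d hd
    · refine ⟨hd1.imp (List.mem_cons_of_mem _) (List.mem_cons_of_mem _), fun φ hφ =>
        (hd2 φ hφ).imp (List.mem_cons_of_mem _) fun ⟨a, ha⟩ => ⟨a, List.mem_cons_of_mem _ ha⟩,
        Or.inl ⟨m, by simp⟩⟩

/-- the Henkin family -/
theorem exists_henkin : ∃ W : ℕ → Set ℕ, W 0 = P ∧ ∀ c : Node,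
    (∃ m, c.True (cs (W m) W)) ∨ ∃ L : List Node, (∀ d ∈ L, d.True W) ∧ Refutes P L c := by
  classical
  obtain ⟨en, hen⟩ := exists_surjective_nat Node
  have step : ∀ (n : ℕ) (L : {L : List Node // ∃ X, Mod P X L}),
      ∃ L' : {L : List Node // ∃ X, Mod P X L}, (∀ d ∈ L.1, d ∈ L'.1) ∧ Done P (en n) L'.1 := by
    rintro n ⟨L, hL⟩
    obtain ⟨L', h1, h2, h3⟩ := exists_step P L hL (en n)
    exact ⟨⟨L', h2⟩, h1, h3⟩
  choose nx hnx1 hnx2 using step
  let Ls : ℕ → {L : List Node // ∃ X, Mod P X L} := fun n =>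
    Nat.rec ⟨[], fun _ => P, rfl, by simp⟩ nx n
  have hLs : ∀ n, Ls (n + 1) = nx n (Ls n) := fun n => rfl
  have mono : ∀ n m, n ≤ m → ∀ d ∈ (Ls n).1, d ∈ (Ls m).1 := by
    intro n m h
    induction m, h using Nat.le_induction with
    | base => exact fun d hd => hd
    | succ m _ ih =>
      intro d hd
      rw [hLs]
      exact hnx1 m (Ls m) d (ih d hd)
  have done : ∀ c, ∃ n, Done P c (Ls n).1 := by
    intro c
    obtain ⟨n, rfl⟩ := hen c
    exact ⟨n + 1, by rw [hLs]; exact hnx2 n (Ls n)⟩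
  let T : Node → Prop := fun c => ∃ n, c ∈ (Ls n).1
  have dec : ∀ c : Node, T c ∨ T (Fm.neg c.1, c.2) := by
    intro c
    obtain ⟨n, hn⟩ := done c
    exact hn.dec.imp (fun h => ⟨n, h⟩) (fun h => ⟨n, h⟩)
  -- consistency
  have con : ∀ c d e : Node, T c → T d → T e → ∃ X, X 0 = P ∧ c.True X ∧ d.True X ∧ e.True X := by
    rintro c d e ⟨n, hn⟩ ⟨m, hm⟩ ⟨k, hk⟩
    obtain ⟨X, hX0, hX⟩ := (Ls (max n (max m k))).2
    refine ⟨X, hX0, hX c (mono _ _ (by omega) c hn), hX d (mono _ _ (by omega) d hm),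
      hX e (mono _ _ (by omega) e hk)⟩
  have imp2 : ∀ c c' d : Node, (∀ X, X 0 = P → c.True X → c'.True X → d.True X) →
      T c → T c' → T d := by
    intro c c' d h hc hc'
    rcases dec d with hd | hd
    · exact hd
    · obtain ⟨X, h0, h1, h2, h3⟩ := con _ _ _ hc hc' hd
      exact absurd (h X h0 h1 h2) h3
  have imp1 : ∀ c d : Node, (∀ X, X 0 = P → c.True X → d.True X) → T c → T d :=
    fun c d h hc => imp2 c c d (fun X h0 h1 _ => h X h0 h1) hc hc
  have val : ∀ d : Node, (∀ X, X 0 = P → d.True X) → T d := by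
    intro d h
    rcases dec d with hd | hd
    · exact hd
    · exact imp1 _ _ (fun X h0 _ => h X h0) hd
  have negn : ∀ c : Node, T (Fm.neg c.1, c.2) ↔ ¬ T c := by
    intro c
    constructor
    · intro h h'
      obtain ⟨X, h0, h1, h2, -⟩ := con _ _ _ h h' h'
      exact h1 h2
    · intro h
      exact (dec c).resolve_left h
  let W : ℕ → Set ℕ := fun n => {x | T (Fm.mem (.var 0) n, [x])}
  have truth : ∀ (φ : Fm) (l : List ℕ), T (φ, l) ↔ φ.Sat W (env l) := by
    intro φ
    induction φ with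
    | eq s t =>
      intro l
      constructor
      · intro h
        obtain ⟨X, -, h1, -⟩ := con _ _ _ h h h
        exact h1
      · intro h
        exact val _ fun X _ => h
    | lt s t =>
      intro l
      constructor
      · intro h
        obtain ⟨X, -, h1, -⟩ := con _ _ _ h h h
        exact h1
      · intro h
        exact val _ fun X _ => h
    | mem t n =>
      intro l
      constructor
      · intro h
        exact imp1 (Fm.mem t n, l) (Fm.mem (.var 0) n, [t.ev (env l)]) (fun X _ h => h) h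
      · intro h
        exact imp1 (Fm.mem (.var 0) n, [t.ev (env l)]) (Fm.mem t n, l) (fun X _ h => h) h
    | neg φ ih =>
      intro l
      rw [negn (φ, l), ih]
      rfl
    | and φ ψ ih1 ih2 =>
      intro l
      constructor
      · intro h
        exact ⟨(ih1 l).1 (imp1 (Fm.and φ ψ, l) (φ, l) (fun X _ h => h.1) h),
          (ih2 l).1 (imp1 (Fm.and φ ψ, l) (ψ, l) (fun X _ h => h.2) h)⟩
      · rintro ⟨h1, h2⟩
        exact imp2 (φ, l) (ψ, l) _ (fun X _ h h' => ⟨h, h'⟩) ((ih1 l).2 h1) ((ih2 l).2 h2)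
    | all φ ih =>
      intro l
      constructor
      · intro h a
        have := (ih (a :: l)).1 (imp1 _ (φ, a :: l) (fun X _ h => by
          have := h a
          show φ.Sat X (env (a :: l))
          rw [env_cons]; exact this) h)
        rwa [env_cons] at this
      · intro h
        obtain ⟨n, hn⟩ := done (.all φ, l)
        rcases hn.wit φ rfl with h1 | ⟨a, ha⟩
        · exact ⟨n, h1⟩
        · exfalso
          have h2 := (negn (φ, a :: l)).1 ⟨n, ha⟩
          apply h2
          rw [ih, env_cons]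
          exact h a
  refine ⟨W, ?_, fun c => ?_⟩
  · ext x
    constructor
    · intro h
      obtain ⟨X, h0, h1, -⟩ := con _ _ _ h h h
      rw [← h0]; exact h1
    · intro h
      exact val (Fm.mem (.var 0) 0, [x]) fun X h0 => by
        show x ∈ X 0
        rw [h0]; exact h
  · obtain ⟨n, hn⟩ := done c
    rcases hn.ex with ⟨m, hm⟩ | ⟨L, hL, hr⟩
    · refine Or.inl ⟨m, ?_⟩
      have h1 := (truth _ _).1 ⟨n, hm⟩
      exact (sat_sub W m c.1 (env c.2)).1 h1
    · exact Or.inr ⟨L, fun d hd => (truth d.1 d.2).1 ⟨n, hL d hd⟩, hr⟩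

end henkin

end Pool.Agent.H787R3
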