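import Mathlib
import Pool.Agent.H787R3.Fm

/-!
Inside a β-family that satisfies `Π¹₁` comprehension there is a coded β-family.
-/

namespace Pool.Agent.H787R3

open Pool.Agent.Helper617.RM Pool.Agent.Helper317.Atr

/-- the family `X` of columns is closed enough -/
def Henkin (P : Set ℕ) (W : ℕ → Set ℕ) : Prop :=
  W 0 = P ∧ ∀ c : Node, (∃ m, c.True (cs (W m) W)) ∨
    ∃ L : List Node, (∀ d ∈ L, d.True W) ∧ Refutes P L c

/-- translation of formulas -/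
theorem exists_fm (W : ℕ → Set ℕ) (θ : OpForm (om (Set.range W))) :
    ∃ φ : Fm, ∀ (Y : Set ℕ) (v : ℕ → ℕ), φ.Sat (cs Y W) v ↔ θ.Holds Y v := by
  have hT : ∀ t : Term (om (Set.range W)), ∃ τ : Tm, ∀ v : ℕ → ℕ, τ.ev v = t.val v := by
    intro t
    induction t with
    | var i => exact ⟨.var i, fun _ => rfl⟩
    | const a => exact ⟨.const a, fun _ => rfl⟩
    | zero => exact ⟨.const 0, fun _ => rfl⟩
    | one => exact ⟨.const 1, fun _ => rfl⟩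
    | add s t ih1 ih2 =>
      obtain ⟨σ, hσ⟩ := ih1
      obtain ⟨τ, hτ⟩ := ih2
      exact ⟨.add σ τ, fun v => congrArg₂ (· + ·) (hσ v) (hτ v)⟩
    | mul s t ih1 ih2 =>
      obtain ⟨σ, hσ⟩ := ih1
      obtain ⟨τ, hτ⟩ := ih2
      exact ⟨.mul σ τ, fun v => congrArg₂ (· * ·) (hσ v) (hτ v)⟩
  induction θ with
  | eq s t =>
    obtain ⟨σ, hσ⟩ := hT s
    obtain ⟨τ, hτ⟩ := hT t
    exact ⟨.eq σ τ, fun Y v => Iff.of_eq (congrArg₂ (· = ·) (hσ v) (hτ v))⟩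
  | lt s t =>
    obtain ⟨σ, hσ⟩ := hT s
    obtain ⟨τ, hτ⟩ := hT t
    exact ⟨.lt σ τ, fun Y v => Iff.of_eq (congrArg₂ (· < ·) (hσ v) (hτ v))⟩
  | mem t X =>
    obtain ⟨τ, hτ⟩ := hT t
    obtain ⟨X, n, rfl⟩ := X
    exact ⟨.mem τ (n + 1), fun Y v => Iff.of_eq (congrArg (· ∈ W n) (hτ v))⟩
  | memY t =>
    obtain ⟨τ, hτ⟩ := hT t
    exact ⟨.mem τ 0, fun Y v => Iff.of_eq (congrArg (· ∈ Y) (hτ v))⟩
  | neg φ ih =>
    obtain ⟨ψ, hψ⟩ := ih
    exact ⟨.neg ψ, fun Y v => not_congr (hψ Y v)⟩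
  | and φ φ' ih1 ih2 =>
    obtain ⟨ψ, hψ⟩ := ih1
    obtain ⟨ψ', hψ'⟩ := ih2
    exact ⟨.and ψ ψ', fun Y v => and_congr (hψ Y v) (hψ' Y v)⟩
  | all φ ih =>
    obtain ⟨ψ, hψ⟩ := ih
    exact ⟨.all ψ, fun Y v => forall_congr' fun a => hψ Y _⟩

theorem Henkin.beta {P : Set ℕ} {W : ℕ → Set ℕ} (h : Henkin P W) : Beta (Set.range W) := by
  intro θ v hY
  obtain ⟨Y, hY⟩ := hY
  obtain ⟨φ, hφ⟩ := exists_fm W θ
  obtain ⟨K, hK⟩ := φ.varDep
  let l : List ℕ := (List.range K).map v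
  have hl : ∀ i < K, env l i = v i := by
    intro i hi
    simp [env, l, List.getD, hi]
  rcases h.2 (φ, l) with ⟨m, hm⟩ | ⟨L, hL, hr⟩
  · refine ⟨W m, ⟨m, rfl⟩, ?_⟩
    rw [← hφ]
    exact (hK _ _ _ hl).1 hm
  · exfalso
    refine hr W Y ⟨h.1, hL⟩ ?_
    refine (hK _ _ _ hl).2 ?_
    rw [hφ]
    exact hY

theorem Henkin.mem {P : Set ℕ} {W : ℕ → Set ℕ} (h : Henkin P W) : P ∈ Set.range W := ⟨0, h.1⟩

section tables

variable (nd : ℕ ≃ Node) (ls : ℕ ≃ List Node)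

/-- the tables -/
inductive Tab : ℕ → ℕ → Prop
  | eq (s t : Tm) (l : List ℕ) : Tab 0 (nd.symm (.eq s t, l))
  | lt (s t : Tm) (l : List ℕ) : Tab 0 (nd.symm (.lt s t, l))
  | eqT (s t : Tm) (l : List ℕ) (h : s.ev (env l) = t.ev (env l)) : Tab 1 (nd.symm (.eq s t, l))
  | ltT (s t : Tm) (l : List ℕ) (h : s.ev (env l) < t.ev (env l)) : Tab 1 (nd.symm (.lt s t, l))
  | mem (t : Tm) (n : ℕ) (l : List ℕ) : Tab 2 (pr (pr (nd.symm (.mem t n, l)) (t.ev (env l))) n)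
  | neg (φ : Fm) (l : List ℕ) : Tab 3 (pr (nd.symm (.neg φ, l)) (nd.symm (φ, l)))
  | and (φ ψ : Fm) (l : List ℕ) :
      Tab 4 (pr (pr (nd.symm (.and φ ψ, l)) (nd.symm (φ, l))) (nd.symm (ψ, l)))
  | all (φ : Fm) (l : List ℕ) : Tab 5 (nd.symm (.all φ, l))
  | allI (φ : Fm) (l : List ℕ) (a : ℕ) : Tab 6 (pr (nd.symm (.all φ, l)) (nd.symm (φ, a :: l)))
  | sub (φ : Fm) (l : List ℕ) (m : ℕ) :
      Tab 7 (pr (pr (nd.symm (φ, l)) m) (nd.symm (φ.sub m, l)))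
  | up (φ : Fm) (l : List ℕ) : Tab 8 (pr (nd.symm (φ, l)) (nd.symm (φ.up, l)))
  | lst (L : List Node) (d : Node) (h : d ∈ L) : Tab 9 (pr (ls.symm L) (nd.symm d))

/-- all tables in one set -/
def tabs : Set ℕ := {q | ∃ i x, q = pr x i ∧ Tab nd ls i x}

theorem mem_tabs {x i : ℕ} : pr x i ∈ tabs nd ls ↔ Tab nd ls i x := by
  constructor
  · rintro ⟨j, y, h, h'⟩
    obtain ⟨rfl, rfl⟩ := pr_inj h
    exact h'
  · exact fun h => ⟨i, x, rfl, h⟩

/-- the columns of `Z` -/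
def col (Z : Set ℕ) (n : ℕ) : Set ℕ := {x | pr (pr x n) 0 ∈ Z}

/-- `Z` contains a satisfaction predicate for its columns -/
structure Tarski (P Z : Set ℕ) : Prop where
  atom : ∀ c, pr c 0 ∈ P → (pr c 1 ∈ Z ↔ pr c 1 ∈ P)
  mem : ∀ c x n, pr (pr (pr c x) n) 2 ∈ P → (pr c 1 ∈ Z ↔ pr (pr x n) 0 ∈ Z)
  neg : ∀ c d, pr (pr c d) 3 ∈ P → (pr c 1 ∈ Z ↔ ¬ pr d 1 ∈ Z)
  and : ∀ c d e, pr (pr (pr c d) e) 4 ∈ P → (pr c 1 ∈ Z ↔ pr d 1 ∈ Z ∧ pr e 1 ∈ Z)
  all : ∀ c, pr c 5 ∈ P → (pr c 1 ∈ Z ↔ ∀ d, pr (pr c d) 6 ∈ P → pr d 1 ∈ Z)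

variable {nd ls}

theorem tab1_eq {s t : Tm} {l : List ℕ} (h : Tab nd ls 1 (nd.symm (.eq s t, l))) :
    s.ev (env l) = t.ev (env l) := by
  generalize hc : nd.symm (.eq s t, l) = c at h
  generalize hi : 1 = i at h
  cases h with
  | eqT s' t' l' h' =>
    have := nd.symm.injective hc
    simp only [Prod.mk.injEq, Fm.eq.injEq] at this
    obtain ⟨⟨rfl, rfl⟩, rfl⟩ := this
    exact h'
  | ltT s' t' l' h' =>
    have := nd.symm.injective hc
    simp at this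
  | _ => omega

theorem tab1_lt {s t : Tm} {l : List ℕ} (h : Tab nd ls 1 (nd.symm (.lt s t, l))) :
    s.ev (env l) < t.ev (env l) := by
  generalize hc : nd.symm (.lt s t, l) = c at h
  generalize hi : 1 = i at h
  cases h with
  | ltT s' t' l' h' =>
    have := nd.symm.injective hc
    simp only [Prod.mk.injEq, Fm.lt.injEq] at this
    obtain ⟨⟨rfl, rfl⟩, rfl⟩ := this
    exact h'
  | eqT s' t' l' h' =>
    have := nd.symm.injective hc
    simp at this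
  | _ => omega

theorem tab6 {c : Node} {d : ℕ} (h : Tab nd ls 6 (pr (nd.symm c) d)) :
    ∃ φ l a, c = (Fm.all φ, l) ∧ d = nd.symm (φ, a :: l) := by
  generalize hc : pr (nd.symm c) d = q at h
  generalize hi : 6 = i at h
  cases h with
  | allI φ l a =>
    obtain ⟨h1, h2⟩ := pr_inj hc
    exact ⟨φ, l, a, nd.symm.injective h1, h2⟩
  | _ => omega

/-- the satisfaction predicate is correct -/
theorem Tarski.correct {Z : Set ℕ} (h : Tarski (tabs nd ls) Z) :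
    ∀ (φ : Fm) (l : List ℕ), pr (nd.symm (φ, l)) 1 ∈ Z ↔ φ.Sat (col Z) (env l) := by
  intro φ
  induction φ with
  | eq s t =>
    intro l
    rw [h.atom _ ((mem_tabs nd ls).2 (Tab.eq s t l)), mem_tabs]
    exact ⟨tab1_eq, fun h => Tab.eqT s t l h⟩
  | lt s t =>
    intro l
    rw [h.atom _ ((mem_tabs nd ls).2 (Tab.lt s t l)), mem_tabs]
    exact ⟨tab1_lt, fun h => Tab.ltT s t l h⟩
  | mem t n =>
    intro l
    exact h.mem _ _ _ ((mem_tabs nd ls).2 (Tab.mem t n l))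
  | neg φ ih =>
    intro l
    rw [h.neg _ _ ((mem_tabs nd ls).2 (Tab.neg φ l)), ih]
    rfl
  | and φ ψ ih1 ih2 =>
    intro l
    rw [h.and _ _ _ ((mem_tabs nd ls).2 (Tab.and φ ψ l)), ih1, ih2]
    rfl
  | all φ ih =>
    intro l
    rw [h.all _ ((mem_tabs nd ls).2 (Tab.all φ l))]
    constructor
    · intro h1 a
      have := (ih (a :: l)).1 (h1 _ ((mem_tabs nd ls).2 (Tab.allI φ l a)))
      rwa [env_cons] at this
    · intro h1 d hd
      obtain ⟨φ', l', a, hc, rfl⟩ := tab6 ((mem_tabs nd ls).1 hd)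
      simp only [Prod.mk.injEq, Fm.all.injEq] at hc
      obtain ⟨rfl, rfl⟩ := hc
      rw [ih, env_cons]
      exact h1 a

/-- the set coding the family `W` and its satisfaction predicate -/
def codeSet (nd : ℕ ≃ Node) (W : ℕ → Set ℕ) : Set ℕ :=
  {q | (∃ x n, q = pr (pr x n) 0 ∧ x ∈ W n) ∨ ∃ c, q = pr c 1 ∧ (nd c).True W}

theorem codeSet_col (W : ℕ → Set ℕ) : col (codeSet nd W) = W := by
  funext n
  ext x
  constructor
  · rintro (⟨x', n', h, h'⟩ | ⟨c, h, -⟩)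
    · obtain ⟨h1, -⟩ := pr_inj h
      obtain ⟨rfl, rfl⟩ := pr_inj h1
      exact h'
    · obtain ⟨-, h2⟩ := pr_inj h
      omega
  · intro h
    exact Or.inl ⟨x, n, rfl, h⟩

theorem codeSet_one (W : ℕ → Set ℕ) (c : ℕ) : pr c 1 ∈ codeSet nd W ↔ (nd c).True W := by
  constructor
  · rintro (⟨x', n', h, h'⟩ | ⟨c', h, h'⟩)
    · obtain ⟨-, h2⟩ := pr_inj h
      omega
    · obtain ⟨rfl, -⟩ := pr_inj h
      exact h'
  · intro h
    exact Or.inr ⟨c, rfl, h⟩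

theorem codeSet_zero (W : ℕ → Set ℕ) (x n : ℕ) : pr (pr x n) 0 ∈ codeSet nd W ↔ x ∈ W n := by
  have := congrArg (fun f => x ∈ f n) (codeSet_col (nd := nd) W)
  exact Iff.of_eq this

theorem tarski_codeSet (W : ℕ → Set ℕ) : Tarski (tabs nd ls) (codeSet nd W) where
  atom c hc := by
    rw [codeSet_one, mem_tabs]
    have hc := (mem_tabs nd ls).1 hc
    generalize hi : 0 = i at hc
    cases hc with
    | eq s t l =>
      rw [Equiv.apply_symm_apply]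
      exact ⟨fun h => Tab.eqT s t l h, tab1_eq⟩
    | lt s t l =>
      rw [Equiv.apply_symm_apply]
      exact ⟨fun h => Tab.ltT s t l h, tab1_lt⟩
    | _ => omega
  mem c x n hc := by
    rw [codeSet_one, codeSet_zero]
    have hc := (mem_tabs nd ls).1 hc
    generalize hi : 2 = i at hc
    generalize hq : pr (pr c x) n = q at hc
    cases hc with
    | mem t n l =>
      obtain ⟨rfl, rfl, rfl⟩ := pr_inj3 hq
      rw [Equiv.apply_symm_apply]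
      rfl
    | _ => omega
  neg c d hc := by
    rw [codeSet_one, codeSet_one]
    have hc := (mem_tabs nd ls).1 hc
    generalize hi : 3 = i at hc
    generalize hq : pr c d = q at hc
    cases hc with
    | neg φ l =>
      obtain ⟨rfl, rfl⟩ := pr_inj hq
      rw [Equiv.apply_symm_apply, Equiv.apply_symm_apply]
      rfl
    | _ => omega
  and c d e hc := by
    rw [codeSet_one, codeSet_one, codeSet_one]
    have hc := (mem_tabs nd ls).1 hc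
    generalize hi : 4 = i at hc
    generalize hq : pr (pr c d) e = q at hc
    cases hc with
    | and φ ψ l =>
      obtain ⟨rfl, rfl, rfl⟩ := pr_inj3 hq
      rw [Equiv.apply_symm_apply, Equiv.apply_symm_apply, Equiv.apply_symm_apply]
      rfl
    | _ => omega
  all c hc := by
    rw [codeSet_one]
    have hc := (mem_tabs nd ls).1 hc
    generalize hi : 5 = i at hc
    cases hc with
    | all φ l =>
      rw [Equiv.apply_symm_apply]
      constructor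
      · intro h d hd
        obtain ⟨φ', l', a, hc, rfl⟩ := tab6 ((mem_tabs nd ls).1 hd)
        simp only [Prod.mk.injEq, Fm.all.injEq] at hc
        obtain ⟨rfl, rfl⟩ := hc
        rw [codeSet_one, Equiv.apply_symm_apply]
        show φ.Sat W (env (a :: l))
        rw [env_cons]
        exact h a
      · intro h a
        have := h _ ((mem_tabs nd ls).2 (Tab.allI φ l a))
        rw [codeSet_one, Equiv.apply_symm_apply] at this
        have h2 : φ.Sat W (env (a :: l)) := this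
        rwa [env_cons] at h2
    | _ => omega

/-- `pr E c` is a member if the list with code `E` and column `0` equal to `P` refutes the node
with the code `c` -/
def Obs (P : Set ℕ) (q : ℕ) (Z : Set ℕ) : Prop :=
  ∀ E c, q = pr E c → Tarski P Z → (∀ x, x ∈ P ↔ pr (pr x 1) 0 ∈ Z) →
    ¬ ((∀ e e', pr (pr E e) 9 ∈ P → pr (pr e e') 8 ∈ P → pr e' 1 ∈ Z) ∧ pr c 1 ∈ Z)

theorem col_succ (Z : Set ℕ) : col Z = cs (col Z 0) (fun n => col Z (n + 1)) := by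
  funext n; cases n <;> rfl

theorem obs_iff (L : List Node) (c : Node) :
    (∀ Z, Obs (tabs nd ls) (pr (ls.symm L) (nd.symm c)) Z) ↔ Refutes (tabs nd ls) L c := by
  constructor
  · intro h X Y hX hc
    refine h (codeSet nd (cs Y X)) _ _ rfl (tarski_codeSet _) (fun x => ?_) ⟨?_, ?_⟩
    · rw [codeSet_zero]
      show _ ↔ x ∈ X 0
      rw [hX.1]
    · intro e e' he he'
      have he := (mem_tabs nd ls).1 he
      have he' := (mem_tabs nd ls).1 he'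
      generalize hi : 9 = i at he
      generalize hq : pr (ls.symm L) e = q at he
      cases he with
      | lst L' d hd =>
        obtain ⟨h1, rfl⟩ := pr_inj hq
        obtain rfl := ls.symm.injective h1
        generalize hi : 8 = i at he'
        generalize hq : pr (nd.symm d) e' = q at he'
        cases he' with
        | up φ l =>
          obtain ⟨h1, rfl⟩ := pr_inj hq
          obtain rfl := nd.symm.injective h1
          rw [codeSet_one, Equiv.apply_symm_apply]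
          exact (sat_up X Y φ _).2 (hX.2 _ hd)
        | _ => omega
      | _ => omega
    · rw [codeSet_one, Equiv.apply_symm_apply]
      exact hc
  · intro h Z E c' hq hT hP ⟨h1, h2⟩
    obtain ⟨rfl, rfl⟩ := pr_inj hq
    refine h (fun n => col Z (n + 1)) (col Z 0) ⟨?_, ?_⟩ ?_
    · ext x
      exact (hP x).symm
    · intro d hd
      have h3 := h1 _ _ ((mem_tabs nd ls).2 (Tab.lst L d hd))
        ((mem_tabs nd ls).2 (Tab.up d.1 d.2))
      rw [hT.correct, col_succ] at h3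
      exact (sat_up _ _ _ _).1 h3
    · have h3 := (hT.correct c.1 c.2).1 h2
      rw [col_succ] at h3
      exact h3

/-- the condition that expresses `Henkin` -/
structure HC (P O Z : Set ℕ) : Prop where
  tar : Tarski P Z
  zero : ∀ x, x ∈ P ↔ pr (pr x 0) 0 ∈ Z
  hk : ∀ c, (∃ m d, pr (pr (pr c m) d) 7 ∈ P ∧ pr d 1 ∈ Z) ∨
    ∃ E, (∀ e, pr (pr E e) 9 ∈ P → pr e 1 ∈ Z) ∧ pr E c ∈ O

theorem hc_of_henkin {W : ℕ → Set ℕ} (h : Henkin (tabs nd ls) W) :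
    HC (tabs nd ls) {q | ∀ Z, Obs (tabs nd ls) q Z} (codeSet nd W) where
  tar := tarski_codeSet W
  zero x := by rw [codeSet_zero, h.1]
  hk c := by
    rcases h.2 (nd c) with ⟨m, hm⟩ | ⟨L, hL, hr⟩
    · refine Or.inl ⟨m, nd.symm ((nd c).1.sub m, (nd c).2), (mem_tabs nd ls).2 ?_, ?_⟩
      · have := Tab.sub (nd := nd) (ls := ls) (nd c).1 (nd c).2 m
        rwa [Prod.mk.eta, Equiv.symm_apply_apply] at this
      · rw [codeSet_one, Equiv.apply_symm_apply]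
        exact (sat_sub _ _ _ _).2 hm
    · refine Or.inr ⟨ls.symm L, ?_, ?_⟩
      · intro e he
        have he := (mem_tabs nd ls).1 he
        generalize hi : 9 = i at he
        generalize hq : pr (ls.symm L) e = q at he
        cases he with
        | lst L' d hd =>
          obtain ⟨h1, rfl⟩ := pr_inj hq
          obtain rfl := ls.symm.injective h1
          rw [codeSet_one, Equiv.apply_symm_apply]
          exact hL _ hd
        | _ => omega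
      · have := (obs_iff (nd := nd) (ls := ls) L (nd c)).2 hr
        rwa [Equiv.symm_apply_apply] at this

theorem henkin_of_hc {Z : Set ℕ} (h : HC (tabs nd ls) {q | ∀ Z, Obs (tabs nd ls) q Z} Z) :
    Henkin (tabs nd ls) (col Z) := by
  refine ⟨?_, fun c => ?_⟩
  · ext x
    exact (h.zero x).symm
  · rcases h.hk (nd.symm c) with ⟨m, d, h1, h2⟩ | ⟨E, h1, h2⟩
    · refine Or.inl ⟨m, ?_⟩
      have h1 := (mem_tabs nd ls).1 h1
      generalize hi : 7 = i at h1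
      generalize hq : pr (pr (nd.symm c) m) d = q at h1
      cases h1 with
      | sub φ l m' =>
        obtain ⟨h3, rfl, rfl⟩ := pr_inj3 hq
        obtain rfl := nd.symm.injective h3
        exact (sat_sub _ _ _ _).1 ((h.tar.correct _ _).1 h2)
      | _ => omega
    · refine Or.inr ⟨ls E, fun d hd => ?_, ?_⟩
      · have h3 := Tab.lst (nd := nd) (ls := ls) (ls E) d hd
        rw [Equiv.symm_apply_apply] at h3
        exact (h.tar.correct d.1 d.2).1 (h1 _ ((mem_tabs nd ls).2 h3))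
      · apply (obs_iff (nd := nd) (ls := ls) (ls E) c).1
        rw [Equiv.symm_apply_apply]
        exact h2

end tables

section definability

variable {S : Set (Set ℕ)} {P : Set ℕ}

theorem A1.tarski (hP : P ∈ S) : A1 S (fun _ Z => Tarski P Z) := by
  have h1 : A1 S (fun _ Z => ∀ c, pr c 0 ∈ P → (pr c 1 ∈ Z ↔ pr c 1 ∈ P)) :=
    A1.all (P := fun _ Z c => pr c 0 ∈ P → (pr c 1 ∈ Z ↔ pr c 1 ∈ P))
      ((A1.mem hP ((T1.var 0).pr (T1.const 0))).imp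
        ((A1.memY ((T1.var 0).pr (T1.const 1))).iff (A1.mem hP ((T1.var 0).pr (T1.const 1)))))
  have h2 : A1 S (fun _ Z => ∀ c x n, pr (pr (pr c x) n) 2 ∈ P →
      (pr c 1 ∈ Z ↔ pr (pr x n) 0 ∈ Z)) :=
    A1.all (P := fun _ Z c => ∀ x n, pr (pr (pr c x) n) 2 ∈ P →
      (pr c 1 ∈ Z ↔ pr (pr x n) 0 ∈ Z)) <|
    A1.all (P := fun v Z x => ∀ n, pr (pr (pr (v 0) x) n) 2 ∈ P →
      (pr (v 0) 1 ∈ Z ↔ pr (pr x n) 0 ∈ Z)) <|
    A1.all (P := fun v Z n => pr (pr (pr (v 1) (v 0)) n) 2 ∈ P →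
      (pr (v 1) 1 ∈ Z ↔ pr (pr (v 0) n) 0 ∈ Z)) <|
      (A1.mem hP (((((T1.var 2).pr (T1.var 1))).pr (T1.var 0)).pr (T1.const 2))).imp
        ((A1.memY ((T1.var 2).pr (T1.const 1))).iff
          (A1.memY (((T1.var 1).pr (T1.var 0)).pr (T1.const 0))))
  have h3 : A1 S (fun _ Z => ∀ c d, pr (pr c d) 3 ∈ P → (pr c 1 ∈ Z ↔ ¬ pr d 1 ∈ Z)) :=
    A1.all (P := fun _ Z c => ∀ d, pr (pr c d) 3 ∈ P → (pr c 1 ∈ Z ↔ ¬ pr d 1 ∈ Z)) <|
    A1.all (P := fun v Z d => pr (pr (v 0) d) 3 ∈ P → (pr (v 0) 1 ∈ Z ↔ ¬ pr d 1 ∈ Z)) <|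
      (A1.mem hP (((T1.var 1).pr (T1.var 0)).pr (T1.const 3))).imp
        ((A1.memY ((T1.var 1).pr (T1.const 1))).iff
          (A1.memY ((T1.var 0).pr (T1.const 1))).not)
  have h4 : A1 S (fun _ Z => ∀ c d e, pr (pr (pr c d) e) 4 ∈ P →
      (pr c 1 ∈ Z ↔ pr d 1 ∈ Z ∧ pr e 1 ∈ Z)) :=
    A1.all (P := fun _ Z c => ∀ d e, pr (pr (pr c d) e) 4 ∈ P →
      (pr c 1 ∈ Z ↔ pr d 1 ∈ Z ∧ pr e 1 ∈ Z)) <|
    A1.all (P := fun v Z d => ∀ e, pr (pr (pr (v 0) d) e) 4 ∈ P →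
      (pr (v 0) 1 ∈ Z ↔ pr d 1 ∈ Z ∧ pr e 1 ∈ Z)) <|
    A1.all (P := fun v Z e => pr (pr (pr (v 1) (v 0)) e) 4 ∈ P →
      (pr (v 1) 1 ∈ Z ↔ pr (v 0) 1 ∈ Z ∧ pr e 1 ∈ Z)) <|
      (A1.mem hP (((((T1.var 2).pr (T1.var 1))).pr (T1.var 0)).pr (T1.const 4))).imp
        ((A1.memY ((T1.var 2).pr (T1.const 1))).iff
          ((A1.memY ((T1.var 1).pr (T1.const 1))).and (A1.memY ((T1.var 0).pr (T1.const 1)))))
  have h5 : A1 S (fun _ Z => ∀ c, pr c 5 ∈ P →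
      (pr c 1 ∈ Z ↔ ∀ d, pr (pr c d) 6 ∈ P → pr d 1 ∈ Z)) :=
    A1.all (P := fun _ Z c => pr c 5 ∈ P →
      (pr c 1 ∈ Z ↔ ∀ d, pr (pr c d) 6 ∈ P → pr d 1 ∈ Z)) <|
      (A1.mem hP ((T1.var 0).pr (T1.const 5))).imp <|
        (A1.memY ((T1.var 0).pr (T1.const 1))).iff <|
        A1.all (P := fun v Z d => pr (pr (v 0) d) 6 ∈ P → pr d 1 ∈ Z) <|
        (A1.mem hP (((T1.var 1).pr (T1.var 0)).pr (T1.const 6))).imp
          (A1.memY ((T1.var 0).pr (T1.const 1)))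
  refine (h1.and (h2.and (h3.and (h4.and h5)))).congr fun _ Z => ?_
  exact ⟨fun ⟨h1, h2, h3, h4, h5⟩ => ⟨h1, h2, h3, h4, h5⟩, fun h => ⟨h.1, h.2, h.3, h.4, h.5⟩⟩

theorem A1.obs (hP : P ∈ S) : A1 S (fun v Z => Obs P (v 0) Z) := by
  unfold Obs
  refine A1.all (P := fun v Z E => ∀ c, v 0 = pr E c → Tarski P Z →
    (∀ x, x ∈ P ↔ pr (pr x 1) 0 ∈ Z) →
    ¬ ((∀ e e', pr (pr E e) 9 ∈ P → pr (pr e e') 8 ∈ P → pr e' 1 ∈ Z) ∧ pr c 1 ∈ Z)) ?_
  refine A1.all (P := fun v Z c => v 1 = pr (v 0) c → Tarski P Z →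
    (∀ x, x ∈ P ↔ pr (pr x 1) 0 ∈ Z) →
    ¬ ((∀ e e', pr (pr (v 0) e) 9 ∈ P → pr (pr e e') 8 ∈ P → pr e' 1 ∈ Z) ∧ pr c 1 ∈ Z)) ?_
  refine (A1.eq (T1.var 2) ((T1.var 1).pr (T1.var 0))).imp ((A1.tarski hP).imp (A1.imp ?_ ?_))
  · exact A1.all (P := fun _ Z x => (x ∈ P ↔ pr (pr x 1) 0 ∈ Z))
      ((A1.mem hP (T1.var 0)).iff (A1.memY (((T1.var 0).pr (T1.const 1)).pr (T1.const 0))))
  · refine (A1.and ?_ (A1.memY ((T1.var 0).pr (T1.const 1)))).not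
    refine A1.all (P := fun v Z e => ∀ e', pr (pr (v 1) e) 9 ∈ P → pr (pr e e') 8 ∈ P →
      pr e' 1 ∈ Z) ?_
    refine A1.all (P := fun v Z e' => pr (pr (v 2) (v 0)) 9 ∈ P → pr (pr (v 0) e') 8 ∈ P →
      pr e' 1 ∈ Z) ?_
    exact (A1.mem hP (((T1.var 3).pr (T1.var 1)).pr (T1.const 9))).imp
      ((A1.mem hP (((T1.var 1).pr (T1.var 0)).pr (T1.const 8))).imp
        (A1.memY ((T1.var 0).pr (T1.const 1))))

theorem A1.hc {O : Set ℕ} (hP : P ∈ S) (hO : O ∈ S) : A1 S (fun _ Z => HC P O Z) := by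
  have h1 : A1 S (fun _ Z => ∀ x, x ∈ P ↔ pr (pr x 0) 0 ∈ Z) :=
    A1.all (P := fun _ Z x => (x ∈ P ↔ pr (pr x 0) 0 ∈ Z))
      ((A1.mem hP (T1.var 0)).iff (A1.memY (((T1.var 0).pr (T1.const 0)).pr (T1.const 0))))
  have h2 : A1 S (fun _ Z => ∀ c, (∃ m d, pr (pr (pr c m) d) 7 ∈ P ∧ pr d 1 ∈ Z) ∨
      ∃ E, (∀ e, pr (pr E e) 9 ∈ P → pr e 1 ∈ Z) ∧ pr E c ∈ O) := by
    refine A1.all (P := fun _ Z c => (∃ m d, pr (pr (pr c m) d) 7 ∈ P ∧ pr d 1 ∈ Z) ∨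
      ∃ E, (∀ e, pr (pr E e) 9 ∈ P → pr e 1 ∈ Z) ∧ pr E c ∈ O) ?_
    refine A1.or ?_ ?_
    · refine A1.ex (P := fun v Z m => ∃ d, pr (pr (pr (v 0) m) d) 7 ∈ P ∧ pr d 1 ∈ Z) ?_
      refine A1.ex (P := fun v Z d => pr (pr (pr (v 1) (v 0)) d) 7 ∈ P ∧ pr d 1 ∈ Z) ?_
      exact (A1.mem hP ((((T1.var 2).pr (T1.var 1)).pr (T1.var 0)).pr (T1.const 7))).and
        (A1.memY ((T1.var 0).pr (T1.const 1)))
    · refine A1.ex (P := fun v Z E => (∀ e, pr (pr E e) 9 ∈ P → pr e 1 ∈ Z) ∧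
        pr E (v 0) ∈ O) ?_
      refine A1.and ?_ (A1.mem hO ((T1.var 0).pr (T1.var 1)))
      refine A1.all (P := fun v Z e => pr (pr (v 0) e) 9 ∈ P → pr e 1 ∈ Z) ?_
      exact (A1.mem hP (((T1.var 1).pr (T1.var 0)).pr (T1.const 9))).imp
        (A1.memY ((T1.var 0).pr (T1.const 1)))
  refine ((A1.tarski hP).and (h1.and h2)).congr fun _ Z => ?_
  exact ⟨fun ⟨h1, h2, h3⟩ => ⟨h1, h2, h3⟩, fun h => ⟨h.1, h.2, h.3⟩⟩

end definability

/-- `Π¹₁` comprehension for definable relations -/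
theorem Beta.pi11 {S : Set (Set ℕ)} (hS : Beta S) (hC : Pi11Comp (om S))
    {R : (ℕ → ℕ) → Set ℕ → Prop} (h : A1 S R) (v : ℕ → ℕ) :
    {n | ∀ Y, R (cons n v) Y} ∈ S := by
  obtain ⟨φ, hφ⟩ := h
  have h1 := hC φ v
  convert h1 using 1
  ext n
  constructor
  · intro h Y _
    exact (hφ _ _).2 (h Y)
  · intro h Y
    by_contra hY
    obtain ⟨Y', h1, h2⟩ := hS (.neg φ) (cons n v) ⟨Y, fun h' => hY ((hφ _ _).1 h')⟩
    exact h2 (h Y' h1)

theorem Beta.henkin {S : Set (Set ℕ)} (hS : Beta S) (nd : ℕ ≃ Node) (ls : ℕ ≃ List Node)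
    (hP : tabs nd ls ∈ S) (hC : Pi11Comp (om S)) :
    ∃ Z ∈ S, Henkin (tabs nd ls) (col Z) := by
  have hO : {q | ∀ Z, Obs (tabs nd ls) q Z} ∈ S := hS.pi11 hC (A1.obs hP) (fun _ => 0)
  obtain ⟨W, hW⟩ := exists_henkin (tabs nd ls)
  obtain ⟨Z, h1, h2⟩ := hS.ex (A1.hc hP hO) (fun _ => 0) ⟨_, hc_of_henkin hW⟩
  exact ⟨Z, h1, henkin_of_hc h2⟩

end Pool.Agent.H787R3
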