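import Mathlib
import Pool.Agent.H787R3.Beta3

/-!
There is a β-family that does not satisfy `Π¹₁` comprehension.
-/

namespace Pool.Agent.H787R3

open Pool.Agent.Helper617.RM Pool.Agent.Helper317.Atr

/-- the relation coded by `R` -/
def rl (R : Set ℕ) (a b : ℕ) : Prop := pr a b ∈ R

/-- `W n` is well-founded in the sense of the family -/
def GW (W : ℕ → Set ℕ) (n : ℕ) : Prop :=
  ∀ m, ¬ ((∃ x, x ∈ W m) ∧ ∀ x, x ∈ W m → ∃ y, y ∈ W m ∧ pr y x ∈ W n)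

/-- the sum of the well-founded relations of the family, with a top element -/
def star (W : ℕ → Set ℕ) : Set ℕ :=
  {q | (∃ x y n, q = pr (pr x (n + 1)) (pr y (n + 1)) ∧ pr x y ∈ W n ∧ GW W n) ∨
    ∃ x n, q = pr (pr x (n + 1)) (pr 0 0) ∧ GW W n}

theorem GW.wf {W : ℕ → Set ℕ} (hW : Beta (Set.range W)) {n : ℕ} (h : GW W n) :
    WellFounded (rl (W n)) := by
  rw [WellFounded.wellFounded_iff_has_min]
  intro s hs
  by_contra hcon
  push Not at hcon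
  have hA : A1 (Set.range W) (fun _ Y => (∃ x, x ∈ Y) ∧ ∀ x, x ∈ Y → ∃ y, y ∈ Y ∧ pr y x ∈ W n) := by
    refine A1.and (A1.ex (P := fun _ Y x => x ∈ Y) (A1.memY (T1.var 0))) ?_
    refine A1.all (P := fun _ Y x => x ∈ Y → ∃ y, y ∈ Y ∧ pr y x ∈ W n) ?_
    refine A1.imp (A1.memY (T1.var 0)) ?_
    refine A1.ex (P := fun v Y y => y ∈ Y ∧ pr y (v 0) ∈ W n) ?_
    exact (A1.memY (T1.var 0)).and (A1.mem ⟨n, rfl⟩ ((T1.var 0).pr (T1.var 1)))
  obtain ⟨Y, ⟨m, rfl⟩, hY⟩ := hW.ex hA (fun _ => 0) ⟨s, hs, hcon⟩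
  exact h m hY

theorem GW.of_wf {W : ℕ → Set ℕ} {n : ℕ} (h : WellFounded (rl (W n))) : GW W n := by
  rintro m ⟨⟨x, hx⟩, h1⟩
  induction x using h.induction with
  | _ x ih =>
    obtain ⟨y, hy, hyx⟩ := h1 x hx
    exact ih y hyx hy

theorem rl_star_succ {W : ℕ → Set ℕ} {a x n : ℕ} (h : rl (star W) a (pr x (n + 1))) :
    GW W n ∧ ∃ y, a = pr y (n + 1) ∧ rl (W n) y x := by
  rcases h with ⟨x', y', n', h1, h2, h3⟩ | ⟨x', n', h1, h2⟩
  · obtain ⟨rfl, h4⟩ := pr_inj h1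
    obtain ⟨rfl, h5⟩ := pr_inj h4
    obtain rfl : n = n' := by omega
    exact ⟨h3, x', rfl, h2⟩
  · obtain ⟨rfl, h4⟩ := pr_inj h1
    obtain ⟨-, h5⟩ := pr_inj h4
    omega

theorem star_acc {W : ℕ → Set ℕ} (hW : Beta (Set.range W)) {n : ℕ} (h : GW W n) (x : ℕ) :
    Acc (rl (star W)) (pr x (n + 1)) := by
  induction x using (h.wf hW).induction with
  | _ x ih =>
    refine ⟨_, fun a ha => ?_⟩
    obtain ⟨-, y, rfl, hy⟩ := rl_star_succ ha
    exact ih y hy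

theorem star_wf {W : ℕ → Set ℕ} (hW : Beta (Set.range W)) : WellFounded (rl (star W)) := by
  refine ⟨fun b => ⟨_, fun a ha => ?_⟩⟩
  rcases ha with ⟨x', y', n', h1, h2, h3⟩ | ⟨x', n', h1, h2⟩
  · obtain ⟨rfl, -⟩ := pr_inj h1
    exact star_acc hW h3 _
  · obtain ⟨rfl, -⟩ := pr_inj h1
    exact star_acc hW h2 _

theorem star_mem {S : Set (Set ℕ)} (hS : Beta S) {Z : Set ℕ} (hZ : Z ∈ S) :
    star (col Z) ∈ S := by
  have hG : A1 S (fun v _ => GW (col Z) (v 0)) := by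
    unfold GW col
    refine A1.all (P := fun v _ m => ¬ ((∃ x, x ∈ {x | pr (pr x m) 0 ∈ Z}) ∧
      ∀ x, x ∈ {x | pr (pr x m) 0 ∈ Z} → ∃ y, y ∈ {x | pr (pr x m) 0 ∈ Z} ∧
        pr y x ∈ {x | pr (pr x (v 0)) 0 ∈ Z})) ?_
    refine (A1.and ?_ ?_).not
    · refine A1.ex (P := fun v _ x => pr (pr x (v 0)) 0 ∈ Z) ?_
      exact A1.mem hZ (((T1.var 0).pr (T1.var 1)).pr (T1.const 0))
    · refine A1.all (P := fun v _ x => pr (pr x (v 0)) 0 ∈ Z →
        ∃ y, pr (pr y (v 0)) 0 ∈ Z ∧ pr (pr (pr y x) (v 1)) 0 ∈ Z) ?_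
      refine A1.imp (A1.mem hZ (((T1.var 0).pr (T1.var 1)).pr (T1.const 0))) ?_
      refine A1.ex (P := fun v _ y => pr (pr y (v 1)) 0 ∈ Z ∧
        pr (pr (pr y (v 0)) (v 2)) 0 ∈ Z) ?_
      exact (A1.mem hZ (((T1.var 0).pr (T1.var 2)).pr (T1.const 0))).and
        (A1.mem hZ ((((T1.var 0).pr (T1.var 1)).pr (T1.var 3)).pr (T1.const 0)))
  refine hS.comp1 (P := fun q => (∃ x y n, q = pr (pr x (n + 1)) (pr y (n + 1)) ∧
    pr x y ∈ col Z n ∧ GW (col Z) n) ∨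
    ∃ x n, q = pr (pr x (n + 1)) (pr 0 0) ∧ GW (col Z) n) ?_
  refine A1.or ?_ ?_
  · refine A1.ex (P := fun v _ x => ∃ y n, v 0 = pr (pr x (n + 1)) (pr y (n + 1)) ∧
      pr x y ∈ col Z n ∧ GW (col Z) n) ?_
    refine A1.ex (P := fun v _ y => ∃ n, v 1 = pr (pr (v 0) (n + 1)) (pr y (n + 1)) ∧
      pr (v 0) y ∈ col Z n ∧ GW (col Z) n) ?_
    refine A1.ex (P := fun v _ n => v 2 = pr (pr (v 1) (n + 1)) (pr (v 0) (n + 1)) ∧
      pr (v 1) (v 0) ∈ col Z n ∧ GW (col Z) n) ?_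
    refine A1.and (A1.eq (T1.var 3) (((T1.var 2).pr ((T1.var 0).add (T1.const 1))).pr
      ((T1.var 1).pr ((T1.var 0).add (T1.const 1))))) (A1.and ?_ hG)
    exact A1.mem hZ ((((T1.var 2).pr (T1.var 1)).pr (T1.var 0)).pr (T1.const 0))
  · refine A1.ex (P := fun v _ x => ∃ n, v 0 = pr (pr x (n + 1)) (pr 0 0) ∧
      GW (col Z) n) ?_
    refine A1.ex (P := fun v _ n => v 1 = pr (pr (v 0) (n + 1)) (pr 0 0) ∧
      GW (col Z) n) ?_
    exact A1.and (A1.eq (T1.var 2) (((T1.var 1).pr ((T1.var 0).add (T1.const 1))).pr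
      ((T1.const 0).pr (T1.const 0)))) hG

theorem beta_univ : Beta (Set.univ : Set (Set ℕ)) := fun _ _ ⟨Y, hY⟩ => ⟨Y, trivial, hY⟩

/-- the descending argument -/
theorem no_descent {T : Type*} (rel : T → Set ℕ) (hwf : ∀ t, WellFounded (rl (rel t)))
    (top : ℕ)
    (hne : ∀ t, ∃ t', ∃ f : ℕ → ℕ, (∀ a b, rl (rel t') a b → rl (rel t) (f a) (f b)) ∧
      rl (rel t) (f top) top) (t : T) : False := by
  have key : ∀ a, ∀ t' : T, ∀ f : ℕ → ℕ, (∀ x y, rl (rel t') x y → rl (rel t) (f x) (f y)) →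
      f top = a → False := by
    intro a
    induction a using (hwf t).induction with
    | _ a ih =>
      intro t' f hf hfa
      obtain ⟨t'', g, hg, hgt⟩ := hne t'
      refine ih (f (g top)) ?_ t'' (f ∘ g) (fun x y hxy => hf _ _ (hg _ _ hxy)) rfl
      rw [← hfa]
      exact hf _ _ hgt
  exact key top t id (fun _ _ h => h) rfl

/-- There is a β-family without `Π¹₁` comprehension. -/
theorem exists_beta_not_pi11 : ∃ S : Set (Set ℕ), Beta S ∧ ¬ Pi11Comp (om S) := by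
  classical
  by_contra hcon
  push Not at hcon
  have hinf1 : Infinite Node :=
    Infinite.of_injective (fun n : ℕ => ((Fm.eq (.const n) (.const n), []) : Node)) (by
      intro a b h
      simpa using h)
  have hinf2 : Infinite (List Node) := inferInstance
  obtain ⟨⟨nd⟩⟩ : Nonempty (Nonempty (ℕ ≃ Node)) := by
    obtain ⟨D⟩ := nonempty_denumerable Node
    exact ⟨⟨(Denumerable.eqv Node).symm⟩⟩
  obtain ⟨⟨ls⟩⟩ : Nonempty (Nonempty (ℕ ≃ List Node)) := by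
    obtain ⟨D⟩ := nonempty_denumerable (List Node)
    exact ⟨⟨(Denumerable.eqv (List Node)).symm⟩⟩
  -- the next family
  have step : ∀ S : Set (Set ℕ), Beta S → tabs nd ls ∈ S →
      ∃ W : ℕ → Set ℕ, Henkin (tabs nd ls) W ∧ star W ∈ S := by
    intro S hS hP
    obtain ⟨Z, hZ, hZ'⟩ := hS.henkin nd ls hP (hcon S hS)
    exact ⟨col Z, hZ', star_mem hS hZ⟩
  obtain ⟨W0, hW0, -⟩ := step Set.univ beta_univ trivial
  let T : Type := {W : ℕ → Set ℕ // Henkin (tabs nd ls) W}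
  refine no_descent (T := T) (fun t => star t.1) (fun t => star_wf t.2.beta) (pr 0 0) ?_ ⟨W0, hW0⟩
  rintro ⟨W, hW⟩
  obtain ⟨W', hW', n, hn⟩ := step (Set.range W) hW.beta hW.mem
  refine ⟨⟨W', hW'⟩, fun x => pr x (n + 1), fun a b hab => ?_, ?_⟩
  · have hG : GW W n := GW.of_wf (by rw [hn]; exact star_wf hW'.beta)
    refine Or.inl ⟨a, b, n, rfl, ?_, hG⟩
    show pr a b ∈ W n
    rw [hn]
    exact hab
  · have hG : GW W n := GW.of_wf (by rw [hn]; exact star_wf hW'.beta)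
    exact Or.inr ⟨pr 0 0, n, rfl, hG⟩

end Pool.Agent.H787R3
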