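import Mathlib
import Pool.Agent.H787R3.Beta1

/-!
β-families satisfy `ATR₀`.
-/

namespace Pool.Agent.H787R3

open Pool.Agent.Helper617.RM Pool.Agent.Helper317.Atr

variable {S : Set (Set ℕ)}

theorem T1.ofTerm (t : Term (om S)) {g : (ℕ → ℕ) → (ℕ → ℕ)} (hg : ∀ i, T1 S (fun v => g v i)) :
    T1 S (fun v => t.val (g v)) := by
  induction t with
  | var i => exact hg i
  | const a => exact T1.const a
  | zero => exact T1.const 0
  | one => exact T1.const 1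
  | add s t ih1 ih2 => exact ih1.add ih2
  | mul s t ih1 ih2 => exact ih1.mul ih2

theorem T1.tl {t : (ℕ → ℕ) → ℕ} (h : T1 S t) : T1 S (fun v => t (tl v)) := by
  obtain ⟨τ, hτ⟩ := h
  obtain ⟨σ, hσ⟩ := T1.ofTerm τ (g := fun v => H787R3.tl v) (fun i => T1.var (i + 1))
  exact ⟨σ, fun v => (hσ v).trans (hτ _)⟩

theorem A1.ofA (φ : AForm (om S)) : A1 S (fun v _ => φ.Holds v) := by
  have hT : ∀ (t : Term (om S)), T1 S (fun v => t.val v) := fun t => ⟨t, fun _ => rfl⟩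
  induction φ with
  | eq s t => exact A1.eq (hT s) (hT t)
  | lt s t => exact A1.lt (hT s) (hT t)
  | mem t X => exact A1.mem X.2 (hT t)
  | neg φ ih => exact ih.not
  | and φ ψ ih1 ih2 => exact ih1.and ih2
  | all φ ih =>
    refine A1.all (P := fun v Y a => φ.Holds (cons a v)) (ih.congr fun w Y => ?_)
    exact Iff.of_eq (congrArg _ (cons_tl w).symm)

theorem Beta.aca (hS : Beta S) : ArithComp (om S) := fun φ v => hS.comp (A1.ofA φ) v

/-- substitution of a definable set for the set variable -/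
theorem A1.subst (θ : OpForm (om S)) {U : (ℕ → ℕ) → Set ℕ → ℕ → Prop}
    (hU : A1 S (fun w Y => U (tl w) Y (w 0))) {g : (ℕ → ℕ) → (ℕ → ℕ)}
    (hg : ∀ i, T1 S (fun v => g v i)) : A1 S (fun w Y => θ.Holds {x | U w Y x} (g w)) := by
  induction θ generalizing U g with
  | eq s t => exact A1.eq (T1.ofTerm s hg) (T1.ofTerm t hg)
  | lt s t => exact A1.lt (T1.ofTerm s hg) (T1.ofTerm t hg)
  | mem t X => exact A1.mem X.2 (T1.ofTerm t hg)
  | memY t =>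
    exact A1.comp hU (g := fun w => cons (t.val (g w)) w) (fun i => by
      cases i with
      | zero => exact T1.ofTerm t hg
      | succ i => exact T1.var i)
  | neg φ ih => exact (ih hU hg).not
  | and φ ψ ih1 ih2 => exact (ih1 hU hg).and (ih2 hU hg)
  | all φ ih =>
    refine A1.all (P := fun w Y a => φ.Holds {x | U w Y x} (cons a (g w))) ?_
    refine ih (U := fun w Y x => U (tl w) Y x) ?_ (g := fun w => cons (w 0) (g (tl w))) ?_
    · exact A1.comp hU (g := fun w => cons (w 0) (tl (tl w))) (fun i => by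
        cases i with
        | zero => exact T1.var 0
        | succ i => exact T1.var (i + 2))
    · intro i
      cases i with
      | zero => exact T1.var 0
      | succ i => exact (hg i).tl

theorem Beta.atr (hS : Beta S) : ArithTransRec (om S) := by
  intro D R hwo θ v
  have hR : {p | ∃ x y, R x y ∧ p = pr x y} ∈ S := hwo.rel
  have hR' : ∀ x y, pr x y ∈ {p | ∃ x y, R x y ∧ p = pr x y} ↔ R x y := by
    intro x y
    constructor
    · rintro ⟨x', y', h, h'⟩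
      obtain ⟨rfl, rfl⟩ := pr_inj h'
      exact h
    · exact fun h => ⟨x, y, h, rfl⟩
  have hRA : ∀ {s t : (ℕ → ℕ) → ℕ}, T1 S s → T1 S t → A1 S (fun v _ => R (s v) (t v)) :=
    fun hs ht => (A1.mem hR (hs.pr ht)).congr fun _ _ => hR' _ _
  let lt' : ℕ → ℕ → Prop := fun a b => R a b ∧ a ≠ b
  have hwf : WellFounded lt' := by
    rw [wellFounded_iff_isEmpty_descending_chain]
    refine ⟨fun ⟨f, hf⟩ => ?_⟩
    -- the graph of the sequence
    have hA : A1 S (fun _ Y => (∀ i, ∃ j, pr i j ∈ Y) ∧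
        (∀ i j j', pr i j ∈ Y → pr i j' ∈ Y → j = j') ∧
        (∀ i j j', pr i j ∈ Y → pr (i + 1) j' ∈ Y → R j' j ∧ ¬ j' = j) ∧
        ∀ q, q ∈ Y → ∃ i j, q = pr i j) := by
      refine A1.and ?_ (A1.and ?_ (A1.and ?_ ?_))
      · refine A1.all (P := fun _ Y i => ∃ j, pr i j ∈ Y) ?_
        refine A1.ex (P := fun v Y j => pr (v 0) j ∈ Y) ?_
        exact A1.memY ((T1.var 1).pr (T1.var 0))
      · refine A1.all (P := fun _ Y i => ∀ j j', pr i j ∈ Y → pr i j' ∈ Y → j = j') ?_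
        refine A1.all (P := fun v Y j => ∀ j', pr (v 0) j ∈ Y → pr (v 0) j' ∈ Y → j = j') ?_
        refine A1.all (P := fun v Y j' => pr (v 1) (v 0) ∈ Y → pr (v 1) j' ∈ Y → v 0 = j') ?_
        exact (A1.memY ((T1.var 2).pr (T1.var 1))).imp
          ((A1.memY ((T1.var 2).pr (T1.var 0))).imp (A1.eq (T1.var 1) (T1.var 0)))
      · refine A1.all (P := fun _ Y i => ∀ j j', pr i j ∈ Y → pr (i + 1) j' ∈ Y →
          R j' j ∧ ¬ j' = j) ?_
        refine A1.all (P := fun v Y j => ∀ j', pr (v 0) j ∈ Y → pr (v 0 + 1) j' ∈ Y →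
          R j' j ∧ ¬ j' = j) ?_
        refine A1.all (P := fun v Y j' => pr (v 1) (v 0) ∈ Y → pr (v 1 + 1) j' ∈ Y →
          R j' (v 0) ∧ ¬ j' = v 0) ?_
        exact (A1.memY ((T1.var 2).pr (T1.var 1))).imp
          ((A1.memY (((T1.var 2).add (T1.const 1)).pr (T1.var 0))).imp
            ((hRA (T1.var 0) (T1.var 1)).and (A1.eq (T1.var 0) (T1.var 1)).not))
      · refine A1.all (P := fun _ Y q => q ∈ Y → ∃ i j, q = pr i j) ?_
        refine (A1.memY (T1.var 0)).imp ?_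
        refine A1.ex (P := fun v _ i => ∃ j, v 0 = pr i j) ?_
        refine A1.ex (P := fun v _ j => v 1 = pr (v 0) j) ?_
        exact A1.eq (T1.var 2) ((T1.var 1).pr (T1.var 0))
    obtain ⟨Y, hY, h1, h2, h3, h4⟩ := hS.ex hA (fun _ => 0)
      ⟨{q | ∃ i, q = pr i (f i)}, fun i => ⟨f i, i, rfl⟩, by
        rintro i j j' ⟨i1, h1⟩ ⟨i2, h2⟩
        obtain ⟨rfl, rfl⟩ := pr_inj h1
        obtain ⟨rfl, rfl⟩ := pr_inj h2
        rfl, by
        rintro i j j' ⟨i1, h1⟩ ⟨i2, h2⟩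
        obtain ⟨rfl, rfl⟩ := pr_inj h1
        obtain ⟨rfl, rfl⟩ := pr_inj h2
        exact hf i, by
        rintro q ⟨i, rfl⟩
        exact ⟨_, _, rfl⟩⟩
    choose g hg using h1
    refine hwo.noDesc ⟨g, ?_, fun i => h3 i _ _ (hg i) (hg (i + 1))⟩
    show {p | ∃ x y, y = g x ∧ p = pr x y} ∈ S
    convert hY using 1
    ext q
    constructor
    · rintro ⟨x, y, rfl, rfl⟩
      exact hg x
    · intro hq
      obtain ⟨i, j, rfl⟩ := h4 q hq
      exact ⟨i, j, h2 i _ _ hq (hg i), rfl⟩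
  let F : (j : ℕ) → ((i : ℕ) → lt' i j → Set ℕ) → Set ℕ := fun j rec =>
    {n | θ.Holds {p | ∃ m i, ∃ h : lt' i j, p = pr m i ∧ m ∈ rec i h} (cons n v)}
  let sec : ℕ → Set ℕ := hwf.fix F
  have hsec : ∀ j, sec j = {n | θ.Holds {p | ∃ m i, ∃ _ : lt' i j, p = pr m i ∧ m ∈ sec i}
      (cons n v)} := fun j => hwf.fix_eq F j
  have hA : A1 S (fun _ Y => ∀ p, p ∈ Y ↔
      ∃ n j : ℕ, j ∈ D ∧ p = pr n j ∧ θ.Holds {q : ℕ | q ∈ Y ∧ ∃ m i, R i j ∧ (¬ i = j) ∧ q = pr m i}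
        (cons n v)) := by
    refine A1.all (P := fun _ Y p => (p ∈ Y ↔
      ∃ n j : ℕ, j ∈ D ∧ p = pr n j ∧ θ.Holds {q : ℕ | q ∈ Y ∧ ∃ m i, R i j ∧ (¬ i = j) ∧ q = pr m i}
        (cons n v))) ?_
    refine (A1.memY (T1.var 0)).iff ?_
    refine A1.ex (P := fun w Y n => ∃ j : ℕ, j ∈ D ∧ w 0 = pr n j ∧
      θ.Holds {q : ℕ | q ∈ Y ∧ ∃ m i, R i j ∧ (¬ i = j) ∧ q = pr m i} (cons n v)) ?_
    refine A1.ex (P := fun w Y (j : ℕ) => j ∈ D ∧ w 1 = pr (w 0) j ∧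
      θ.Holds {q : ℕ | q ∈ Y ∧ ∃ m i, R i j ∧ (¬ i = j) ∧ q = pr m i} (cons (w 0) v)) ?_
    refine (A1.mem hwo.mem (T1.var 0)).and ((A1.eq (T1.var 2) ((T1.var 1).pr (T1.var 0))).and ?_)
    refine A1.subst θ (U := fun w Y q => q ∈ Y ∧ ∃ m i, R i (w 0) ∧ (¬ i = w 0) ∧ q = pr m i)
      ?_ (g := fun w => cons (w 1) v) ?_
    · refine (A1.memY (T1.var 0)).and ?_
      refine A1.ex (P := fun w _ m => ∃ i, R i (w 1) ∧ (¬ i = w 1) ∧ w 0 = pr m i) ?_
      refine A1.ex (P := fun w _ i => R i (w 2) ∧ (¬ i = w 2) ∧ w 1 = pr (w 0) i) ?_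
      exact (hRA (T1.var 0) (T1.var 3)).and ((A1.eq (T1.var 0) (T1.var 3)).not.and
        (A1.eq (T1.var 2) ((T1.var 1).pr (T1.var 0))))
    · intro i
      cases i with
      | zero => exact T1.var 1
      | succ i => exact T1.const _
  have hB : ∀ j : ℕ, {q : ℕ | q ∈ {p : ℕ | ∃ n j : ℕ, j ∈ D ∧ p = pr n j ∧ n ∈ sec j} ∧
      ∃ m i, R i j ∧ (¬ i = j) ∧ q = pr m i} =
      {p | ∃ m i, ∃ _ : lt' i j, p = pr m i ∧ m ∈ sec i} := by
    intro j
    ext q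
    constructor
    · rintro ⟨⟨n', j', -, rfl, hn'⟩, m, i, h1, h2, h3⟩
      obtain ⟨rfl, rfl⟩ := pr_inj h3
      exact ⟨_, _, ⟨h1, h2⟩, rfl, hn'⟩
    · rintro ⟨m, i, h1, rfl, h2⟩
      exact ⟨⟨m, i, (hwo.dom _ _ h1.1).1, rfl, h2⟩, m, i, h1.1, h1.2, rfl⟩
  have hsec' : ∀ n j : ℕ, n ∈ sec j ↔ θ.Holds {q : ℕ | q ∈ {p : ℕ | ∃ n j : ℕ, j ∈ D ∧
      p = pr n j ∧ n ∈ sec j} ∧ ∃ m i, R i j ∧ (¬ i = j) ∧ q = pr m i} (cons n v) := by
    intro n j
    rw [hB]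
    have := congrArg (fun s => n ∈ s) (hsec j)
    exact Iff.of_eq this
  obtain ⟨Y, hY, hY'⟩ := hS.ex hA (fun _ => 0) ⟨{p | ∃ n j : ℕ, j ∈ D ∧ p = pr n j ∧ n ∈ sec j}, by
    intro p
    constructor
    · rintro ⟨n, j, hj, rfl, hn⟩
      exact ⟨n, j, hj, rfl, (hsec' n j).1 hn⟩
    · rintro ⟨n, j, hj, rfl, hn⟩
      exact ⟨n, j, hj, rfl, (hsec' n j).2 hn⟩⟩
  exact ⟨Y, hY, hY'⟩

theorem Beta.atr0 (hS : Beta S) : IsModelATR0 (om S) := ⟨hS.rca, hS.aca, hS.atr⟩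

end Pool.Agent.H787R3
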